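import Pool.Agent.Y56.Om.Mods

set_option autoImplicit false

open Polynomial

namespace Pool.Agent.Y56.Om

/-- the symmetric extension of `w` mod `3` -/
def W (n : ℕ) (j : ℤ) : ZMod 3 := (w n j.natAbs : ZMod 3)

lemma w_succ (n : ℕ) (j : ℤ) : w (n + 1) j.natAbs = w n (j + 1).natAbs + w n (j - 1).natAbs := by
  rcases lt_trichotomy j 0 with h | h | h
  · obtain ⟨m, rfl⟩ : ∃ m : ℕ, j = -((m : ℤ) + 1) := ⟨(-j - 1).toNat, by omega⟩
    have h1 : (-((m : ℤ) + 1)).natAbs = m + 1 := by omega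
    have h2 : (-((m : ℤ) + 1) + 1).natAbs = m := by omega
    have h3 : (-((m : ℤ) + 1) - 1).natAbs = m + 2 := by omega
    rw [h1, h2, h3, w]
    ring
  · subst h
    have h1 : ((0 : ℤ)).natAbs = 0 := rfl
    have h2 : ((0 : ℤ) + 1).natAbs = 1 := rfl
    have h3 : ((0 : ℤ) - 1).natAbs = 1 := rfl
    rw [h1, h2, h3, w]
    ring
  · obtain ⟨m, rfl⟩ : ∃ m : ℕ, j = (m : ℤ) + 1 := ⟨(j - 1).toNat, by omega⟩
    have h1 : ((m : ℤ) + 1).natAbs = m + 1 := by omega
    have h2 : ((m : ℤ) + 1 - 1).natAbs = m := by omega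
    have h3 : ((m : ℤ) + 1 + 1).natAbs = m + 2 := by omega
    rw [h1, h2, h3, w]

lemma W_succ (n : ℕ) (j : ℤ) : W (n + 1) j = W n (j + 1) + W n (j - 1) := by
  unfold W
  rw [w_succ]
  push_cast
  rfl

lemma W_pow (k : ℕ) : ∀ n j, W (n + 3 ^ k) j = W n (j + 3 ^ k) + W n (j - 3 ^ k) := by
  induction k with
  | zero => intro n j; simpa using W_succ n j
  | succ k ih =>
    intro n j
    have h3 : (3 : ZMod 3) = 0 := rfl
    have e1 : n + 3 ^ (k + 1) = n + 3 ^ k + 3 ^ k + 3 ^ k := by ring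
    rw [e1, ih, ih, ih, ih, ih, ih, ih]
    have a1 : j + 3 ^ k + 3 ^ k + 3 ^ k = j + 3 ^ (k + 1) := by ring
    have a2 : j + 3 ^ k + 3 ^ k - 3 ^ k = j + 3 ^ k := by ring
    have a3 : j + 3 ^ k - 3 ^ k + 3 ^ k = j + 3 ^ k := by ring
    have a4 : j + 3 ^ k - 3 ^ k - 3 ^ k = j - 3 ^ k := by ring
    have a5 : j - 3 ^ k + 3 ^ k + 3 ^ k = j + 3 ^ k := by ring
    have a6 : j - 3 ^ k + 3 ^ k - 3 ^ k = j - 3 ^ k := by ring
    have a7 : j - 3 ^ k - 3 ^ k + 3 ^ k = j - 3 ^ k := by ring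
    have a8 : j - 3 ^ k - 3 ^ k - 3 ^ k = j - 3 ^ (k + 1) := by ring
    rw [a1, a2, a3, a4, a5, a6, a7, a8]
    linear_combination (W n (j + 3 ^ k) + W n (j - 3 ^ k)) * h3

lemma w_large (m : ℕ) : ∀ j, m ≤ j → w m j = 2 ^ m * (2 * j + 1) := by
  induction m with
  | zero => intro j _; simp [w]
  | succ m ih =>
    intro j hj
    obtain ⟨j, rfl⟩ : ∃ i, j = i + 1 := ⟨j - 1, by omega⟩
    rw [w, ih _ (by omega), ih _ (by omega)]
    push_cast
    ring

/-- the sequence -/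
def c (n : ℕ) : ℤ := w n 0

lemma c_eq (n : ℕ) : (c n : ZMod 3) = W n 0 := rfl

lemma two_pow_three (k : ℕ) : (2 : ZMod 3) ^ (3 ^ k) = 2 := by
  induction k with
  | zero => simp
  | succ k ih => rw [pow_succ, pow_mul, ih]; rfl

lemma c_mid (k : ℕ) (hk : 1 ≤ k) (m : ℕ) (hm : m ≤ 3 ^ k) :
    (c (m + 3 ^ k) : ZMod 3) = 2 ^ (m + 1) := by
  rw [c_eq, W_pow]
  have h1 : (0 + 3 ^ k : ℤ).natAbs = 3 ^ k := by
    rw [zero_add, Int.natAbs_pow]; rfl
  have h2 : (0 - 3 ^ k : ℤ).natAbs = 3 ^ k := by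
    rw [zero_sub, Int.natAbs_neg, Int.natAbs_pow]; rfl
  unfold W
  rw [h1, h2, w_large m _ hm]
  push_cast
  have h3 : (3 : ZMod 3) = 0 := rfl
  rw [h3, zero_pow (by omega)]
  ring

lemma e_zero (k : ℕ) (hk : 1 ≤ k) (n : ℕ) (h1 : 3 ^ k ≤ n) (h2 : n < 2 * 3 ^ k) :
    (c (n + 1) : ZMod 3) - 2 * c n = 0 := by
  obtain ⟨m, rfl⟩ : ∃ m, n = m + 3 ^ k := ⟨n - 3 ^ k, by omega⟩
  have e1 : m + 3 ^ k + 1 = (m + 1) + 3 ^ k := by ring
  rw [e1, c_mid k hk _ (by omega), c_mid k hk _ (by omega)]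
  ring

lemma e_ne_zero (k : ℕ) (hk : 1 ≤ k) :
    (c (2 * 3 ^ k + 1) : ZMod 3) - 2 * c (2 * 3 ^ k) ≠ 0 := by
  have h3 : (3 : ZMod 3) = 0 := rfl
  have hk0 : (3 : ZMod 3) ^ k = 0 := by rw [h3, zero_pow (by omega)]
  have e1 : 2 * 3 ^ k = 3 ^ k + 3 ^ k := by ring
  have hpos : 1 ≤ 3 ^ k := Nat.one_le_pow _ _ (by norm_num)
  have v1 : (c (2 * 3 ^ k) : ZMod 3) = 1 := by
    rw [e1, c_mid k hk _ le_rfl, pow_succ, two_pow_three]
    rfl
  have v2 : (c (2 * 3 ^ k + 1) : ZMod 3) = 1 := by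
    have e2 : 2 * 3 ^ k + 1 = (3 ^ k + 1) + 3 ^ k := by ring
    rw [e2, c_eq, W_pow, W_succ, W_succ]
    have n1 : (0 + 3 ^ k + 1 : ℤ).natAbs = 3 ^ k + 1 := by
      have : (0 + 3 ^ k + 1 : ℤ) = ((3 ^ k + 1 : ℕ) : ℤ) := by push_cast; ring
      rw [this, Int.natAbs_natCast]
    have n4 : (0 - 3 ^ k - 1 : ℤ).natAbs = 3 ^ k + 1 := by
      have : (0 - 3 ^ k - 1 : ℤ) = -((3 ^ k + 1 : ℕ) : ℤ) := by push_cast; ring
      rw [this, Int.natAbs_neg, Int.natAbs_natCast]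
    have b1 : W (3 ^ k) (0 + 3 ^ k + 1) = 0 := by
      unfold W
      rw [n1, w_large _ _ (by omega)]
      push_cast
      rw [hk0]
      have : (2 * (0 + 1) + 1 : ZMod 3) = 0 := rfl
      rw [this, mul_zero]
    have b4 : W (3 ^ k) (0 - 3 ^ k - 1) = 0 := by
      unfold W
      rw [n4, w_large _ _ (by omega)]
      push_cast
      rw [hk0]
      have : (2 * (0 + 1) + 1 : ZMod 3) = 0 := rfl
      rw [this, mul_zero]
    have b0 : ∀ j, W (3 ^ k) j = W 0 (j + 3 ^ k) + W 0 (j - 3 ^ k) := fun j => by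
      have := W_pow k 0 j
      rwa [zero_add] at this
    have c0 : ∀ j : ℕ, W 0 (j : ℤ) = 2 * (j : ZMod 3) + 1 := fun j => by
      unfold W
      rw [Int.natAbs_natCast]
      simp [w]
    have c1 : ∀ j : ℕ, W 0 (-(j : ℤ)) = 2 * (j : ZMod 3) + 1 := fun j => by
      unfold W
      rw [Int.natAbs_neg, Int.natAbs_natCast]
      simp [w]
    have b2 : W (3 ^ k) (0 + 3 ^ k - 1) = 2 := by
      rw [b0]
      have g1 : (0 + 3 ^ k - 1 + 3 ^ k : ℤ) = ((2 * 3 ^ k - 1 : ℕ) : ℤ) := by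
        rw [Nat.cast_sub (by omega)]; push_cast; ring
      have g2 : (0 + 3 ^ k - 1 - 3 ^ k : ℤ) = -((1 : ℕ) : ℤ) := by push_cast; ring
      rw [g1, g2, c0, c1, Nat.cast_sub (by omega)]
      push_cast
      rw [hk0]
      rfl
    have b3 : W (3 ^ k) (0 - 3 ^ k + 1) = 2 := by
      rw [b0]
      have g1 : (0 - 3 ^ k + 1 + 3 ^ k : ℤ) = ((1 : ℕ) : ℤ) := by push_cast; ring
      have g2 : (0 - 3 ^ k + 1 - 3 ^ k : ℤ) = -((2 * 3 ^ k - 1 : ℕ) : ℤ) := by
        rw [Nat.cast_sub (by omega)]; push_cast; ring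
      rw [g1, g2, c0, c1, Nat.cast_sub (by omega)]
      push_cast
      rw [hk0]
      rfl
    rw [b1, b2, b3, b4]
    rfl
  rw [v1, v2]
  decide

/-- The generating function of `c` is not rational. -/
lemma not_rational (P Q : ℚ[X]) (hQ : Q ≠ 0)
    (h : (Q : PowerSeries ℚ) * PowerSeries.mk (fun n => (c n : ℚ)) = (P : PowerSeries ℚ)) :
    False := by
  classical
  -- integral multiple
  set Q0 : ℤ[X] := IsLocalization.integerNormalization (nonZeroDivisors ℤ) Q with hQ0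
  obtain ⟨b, hb⟩ := IsLocalization.integerNormalization_map_to_map (nonZeroDivisors ℤ) Q
  rw [← hQ0] at hb
  have hb0 : ((b : ℤ) : ℚ) ≠ 0 := by
    have := nonZeroDivisors.ne_zero b.2
    exact_mod_cast this
  have hQ0ne : Q0 ≠ 0 := by
    intro h0
    rw [h0, Polynomial.map_zero] at hb
    have h1 : ((b : ℤ) : ℚ) • Q = 0 := by
      rw [hb]
      ext n
      simp
    exact hQ ((smul_eq_zero.1 h1).resolve_left hb0)
  set Q1 : ℤ[X] := Q0.primPart with hQ1
  have hprim : Q1.IsPrimitive := Q0.isPrimitive_primPart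
  have hcont : Q0.content ≠ 0 := by
    rwa [Ne, content_eq_zero_iff]
  have hcoef : ∀ i, (Q0.content : ℚ) * (Q1.coeff i : ℚ) = ((b : ℤ) : ℚ) * Q.coeff i := by
    intro i
    have h1 : Q0.coeff i = Q0.content * Q1.coeff i := by
      conv_lhs => rw [Q0.eq_C_content_mul_primPart]
      rw [coeff_C_mul]
    have h2 : ((Q0.coeff i : ℤ) : ℚ) = ((b : ℤ) : ℚ) * Q.coeff i := by
      have := congrArg (fun p => Polynomial.coeff p i) hb
      simpa using this
    rw [← h2, h1]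
    push_cast
    ring
  -- recurrence
  have hrecQ : ∀ N, P.natDegree < N →
      ∑ x ∈ Finset.HasAntidiagonal.antidiagonal N, (Q1.coeff x.1 : ℚ) * (c x.2 : ℚ) = 0 := by
    intro N hN
    have h1 := congrArg (fun s => PowerSeries.coeff N s) h
    simp only [PowerSeries.coeff_mul, Polynomial.coeff_coe, PowerSeries.coeff_mk] at h1
    rw [coeff_eq_zero_of_natDegree_lt hN] at h1
    have h2 : (Q0.content : ℚ) * ∑ x ∈ Finset.HasAntidiagonal.antidiagonal N, (Q1.coeff x.1 : ℚ) * (c x.2 : ℚ)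
        = 0 := by
      rw [Finset.mul_sum]
      have : ∀ x ∈ Finset.HasAntidiagonal.antidiagonal N, (Q0.content : ℚ) * ((Q1.coeff x.1 : ℚ) * (c x.2 : ℚ))
          = ((b : ℤ) : ℚ) * (Q.coeff x.1 * (c x.2 : ℚ)) := fun x _ => by
        rw [← mul_assoc, hcoef, mul_assoc]
      rw [Finset.sum_congr rfl this, ← Finset.mul_sum, h1, mul_zero]
    have h3 : (Q0.content : ℚ) ≠ 0 := by exact_mod_cast hcont
    exact (mul_eq_zero.1 h2).resolve_left h3
  have hrecZ : ∀ N, P.natDegree < N →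
      ∑ x ∈ Finset.HasAntidiagonal.antidiagonal N, Q1.coeff x.1 * c x.2 = 0 := by
    intro N hN
    have := hrecQ N hN
    exact_mod_cast this
  let q : ℕ → ZMod 3 := fun i => (Q1.coeff i : ZMod 3)
  have hq0 : ∀ i, Q1.natDegree < i → q i = 0 := fun i hi => by
    simp only [q]
    rw [coeff_eq_zero_of_natDegree_lt hi]
    simp
  have hrec : ∀ N, P.natDegree < N → Q1.natDegree ≤ N →
      ∑ i ∈ Finset.range (Q1.natDegree + 1), q i * (c (N - i) : ZMod 3) = 0 := by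
    intro N hN hN'
    have h1 := hrecZ N hN
    rw [Finset.Nat.sum_antidiagonal_eq_sum_range_succ_mk] at h1
    have h2 := congrArg (fun z : ℤ => (z : ZMod 3)) h1
    simp only [Int.cast_sum, Int.cast_mul, Int.cast_zero] at h2
    rw [← h2]
    refine Finset.sum_subset (Finset.range_subset_range.2 (by omega)) fun i _ hi => ?_
    have : q i = 0 := hq0 i (by simpa using hi)
    change q i * _ = 0
    rw [this, zero_mul]
  have hex : ∃ i, q i ≠ 0 := by
    by_contra hcon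
    push Not at hcon
    have hdvd : C (3 : ℤ) ∣ Q1 := by
      rw [C_dvd_iff_dvd_coeff]
      intro i
      exact (ZMod.intCast_zmod_eq_zero_iff_dvd (Q1.coeff i) 3).1 (hcon i)
    have := hprim 3 hdvd
    rw [Int.isUnit_iff] at this
    omega
  let e := Nat.find hex
  have he : q e ≠ 0 := Nat.find_spec hex
  have helt : ∀ i, i < e → q i = 0 := fun i hi => by
    have := Nat.find_min hex hi
    push Not at this
    exact this
  have hed : e ≤ Q1.natDegree := by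
    by_contra hcon
    exact he (hq0 e (by omega))
  -- choose k
  set k := P.natDegree + Q1.natDegree + 1 with hk
  have hk3 : k < 3 ^ k := Nat.lt_pow_self (by norm_num)
  have s1 := hrec (2 * 3 ^ k + e) (by omega) (by omega)
  have s2 := hrec (2 * 3 ^ k + e + 1) (by omega) (by omega)
  have s3 : ∑ i ∈ Finset.range (Q1.natDegree + 1),
      q i * ((c (2 * 3 ^ k + e + 1 - i) : ZMod 3) - 2 * c (2 * 3 ^ k + e - i)) = 0 := by
    have : ∀ i ∈ Finset.range (Q1.natDegree + 1),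
        q i * ((c (2 * 3 ^ k + e + 1 - i) : ZMod 3) - 2 * c (2 * 3 ^ k + e - i))
        = q i * (c (2 * 3 ^ k + e + 1 - i) : ZMod 3) - 2 * (q i * c (2 * 3 ^ k + e - i)) :=
      fun i _ => by ring
    rw [Finset.sum_congr rfl this, Finset.sum_sub_distrib, ← Finset.mul_sum, s1, s2]
    ring
  rw [Finset.sum_eq_single e] at s3
  · have e1 : 2 * 3 ^ k + e + 1 - e = 2 * 3 ^ k + 1 := by omega
    have e2 : 2 * 3 ^ k + e - e = 2 * 3 ^ k := by omega
    rw [e1, e2] at s3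
    exact (mul_ne_zero he (e_ne_zero k (by omega))) s3
  · intro i hi hie
    rcases lt_or_gt_of_ne hie with hlt | hgt
    · rw [helt i hlt, zero_mul]
    · have hi' : i ≤ Q1.natDegree := by
        rw [Finset.mem_range] at hi
        omega
      have e1 : 2 * 3 ^ k + e + 1 - i = (2 * 3 ^ k + e - i) + 1 := by omega
      rw [e1, e_zero k (by omega) _ (by omega) (by omega), mul_zero]
  · intro h
    exact absurd (Finset.mem_range.2 (by omega)) h

end Pool.Agent.Y56.Om
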