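import Pool.Agent.Y56.Om.RepCore
import Pool.Agent.Y56.Om.Arith

set_option autoImplicit false
open TensorProduct CategoryTheory CategoryTheory.MonoidalCategory CategoryTheory.Limits

namespace Pool.Agent.Y56.Om

instance charP2 : CharP (ZMod 2) 2 := ZMod.charP 2

/-- the module `Ω(k) ⊕ Ω^{-1}(k)` over `F_2 (C_2 × C_2)` -/
noncomputable def MM : Rep.{0} (ZMod 2) G := Rep.of (MR (ZMod 2))

/-- tensor powers -/
noncomputable def XX : ℕ → Rep.{0} (ZMod 2) G
  | 0 => 𝟙_ (Rep.{0} (ZMod 2) G)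
  | n + 1 => XX n ⊗ MM

lemma iter_eq (n : ℕ) : (fun X : Rep.{0} (ZMod 2) G => X ⊗ MM)^[n] (𝟙_ (Rep.{0} (ZMod 2) G)) = XX n := by
  induction n with
  | zero => rfl
  | succ n ih => rw [Function.iterate_succ_apply', ih]; rfl

instance fdXX (n : ℕ) : FiniteDimensional (ZMod 2) (XX n).V := by
  induction n with
  | zero => exact (inferInstance : FiniteDimensional (ZMod 2) (ZMod 2))
  | succ n ih =>
    have := ih
    exact (inferInstance : FiniteDimensional (ZMod 2)
      ((XX n).V ⊗[ZMod 2] (UV (ZMod 2) 1 × DV (ZMod 2) 1)))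

lemma St_comm {k : Type} [Field k] [CharP k 2] {V W : Type} [AddCommGroup V] [Module k V]
    [FiniteDimensional k V] [AddCommGroup W] [Module k W] [FiniteDimensional k W]
    (α : Representation k G V) (β : Representation k G W) : St (α.tprod β) (β.tprod α) := by
  refine St.of_equiv (TensorProduct.comm k V W) (fun g x => ?_)
  induction x using TensorProduct.induction_on with
  | zero => simp
  | add x y hx hy => simp only [map_add, hx, hy]
  | tmul v w => simp [Representation.tprod_apply]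

lemma cd_XX (n : ℕ) : cd (XX n).ρ = c n := by
  have h0 : St (XX 0).ρ (Representation.trivial (ZMod 2) G (ZMod 2)) :=
    St.of_equiv (LinearEquiv.refl (ZMod 2) (ZMod 2)) (fun g v => rfl)
  have hs : ∀ n, St (XX (n + 1)).ρ ((MR (ZMod 2)).tprod (XX n).ρ) :=
    fun n => St_comm (XX n).ρ (MR (ZMod 2))
  have h := (cd_eq_w (ZMod 2) (fun n => (XX n).V) (fun n => (XX n).ρ) h0 hs n 0).1
  rw [St_U0 (ZMod 2) _ (XX n).ρ, cd_trivial_tprod] at h
  exact h

theorem final :
    ¬ (∀ (p : ℕ) (k : Type) [Field k] [CharP k p], p.Prime →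
      ∀ (G : Type) [Group G] [Finite G] (M : Rep k G), FiniteDimensional k M.V →
        ∃ P Q : Polynomial ℚ, Q ≠ 0 ∧
          (Q : PowerSeries ℚ) *
              PowerSeries.mk (fun n : ℕ =>
                ((sInf {d : ℕ | ∃ N P' : Rep k G, Projective P' ∧
                    Nonempty ((fun X : Rep k G => X ⊗ M)^[n] (𝟙_ (Rep k G)) ≅ N ⊞ P') ∧
                    Module.finrank k N.V = d} : ℕ) : ℚ)) =
            (P : PowerSeries ℚ)) := by
  intro H
  obtain ⟨P, Q, hQ, h⟩ := H 2 (ZMod 2) Nat.prime_two G MM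
    (inferInstanceAs (FiniteDimensional (ZMod 2) (UV (ZMod 2) 1 × DV (ZMod 2) 1)))
  refine not_rational P Q hQ ?_
  rw [← h]
  congr 1
  ext n
  rw [PowerSeries.coeff_mk, PowerSeries.coeff_mk, iter_eq, ← cd_XX, ← sInf_eq_cd]
  push_cast
  rfl

end Pool.Agent.Y56.Om
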