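import Mathlib

set_option autoImplicit false
set_option linter.unusedSectionVars false
set_option linter.unusedVariables false

open TensorProduct

namespace Pool.Agent.Y56.Om

/-- The Klein four group. -/
abbrev G : Type := Multiplicative (ZMod 2) × Multiplicative (ZMod 2)

def ga : G := (Multiplicative.ofAdd 1, 1)
def gb : G := (1, Multiplicative.ofAdd 1)

lemma ga_mul : ga * ga = 1 := by decide
lemma gb_mul : gb * gb = 1 := by decide
lemma ga_gb : ga * gb = gb * ga := by decide
lemma univ_eq : (Finset.univ : Finset G) = {1, ga, gb, ga * gb} := by decide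
lemma cases_G (g : G) : g = 1 ∨ g = ga ∨ g = gb ∨ g = ga * gb := by
  revert g; decide
lemma sum_G {A : Type*} [AddCommMonoid A] (f : G → A) :
    ∑ g, f g = f 1 + f ga + f gb + f (ga * gb) := by
  rw [univ_eq, Finset.sum_insert (by decide), Finset.sum_insert (by decide),
    Finset.sum_insert (by decide), Finset.sum_singleton]
  abel

section char2
variable (k : Type) [Field k] [CharP k 2] {V : Type} [AddCommGroup V] [Module k V]
include k

lemma add_self (v : V) : v + v = 0 := by
  have h : (2 : k) = 0 := CharP.cast_eq_zero k 2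
  rw [← two_smul k v, h, zero_smul]

lemma neg_eq (v : V) : -v = v := by
  rw [neg_eq_iff_add_eq_zero]; exact add_self k v

end char2

variable {k : Type} [Field k] [CharP k 2]

section basic

variable {V : Type} [AddCommGroup V] [Module k V] (ρ : Representation k G V)

/-- `X = a - 1` -/
noncomputable def X : V →ₗ[k] V := ρ ga - 1
/-- `Y = b - 1` -/
noncomputable def Y : V →ₗ[k] V := ρ gb - 1

lemma X_apply (v : V) : X ρ v = ρ ga v + v := by
  simp only [X, LinearMap.sub_apply, Module.End.one_apply]
  rw [sub_eq_add_neg, neg_eq k]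

lemma Y_apply (v : V) : Y ρ v = ρ gb v + v := by
  simp only [Y, LinearMap.sub_apply, Module.End.one_apply]
  rw [sub_eq_add_neg, neg_eq k]

lemma ρga_ρga (v : V) : ρ ga (ρ ga v) = v := by
  rw [← Module.End.mul_apply, ← map_mul, ga_mul, map_one, Module.End.one_apply]
lemma ρgb_ρgb (v : V) : ρ gb (ρ gb v) = v := by
  rw [← Module.End.mul_apply, ← map_mul, gb_mul, map_one, Module.End.one_apply]
lemma ρgb_ρga (v : V) : ρ gb (ρ ga v) = ρ ga (ρ gb v) := by
  rw [← Module.End.mul_apply, ← map_mul, ← Module.End.mul_apply, ← map_mul, ga_gb]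

lemma X_X (v : V) : X ρ (X ρ v) = 0 := by
  rw [X_apply, X_apply, map_add, ρga_ρga, add_comm (ρ ga v) v]
  exact add_self k _

lemma Y_Y (v : V) : Y ρ (Y ρ v) = 0 := by
  rw [Y_apply, Y_apply, map_add, ρgb_ρgb, add_comm (ρ gb v) v]
  exact add_self k _

lemma X_Y (v : V) : X ρ (Y ρ v) = Y ρ (X ρ v) := by
  rw [X_apply, Y_apply, Y_apply, X_apply, map_add, map_add, ρgb_ρga]
  abel

lemma norm_eq (v : V) : ρ.norm v = X ρ (Y ρ v) := by
  rw [X_apply, Y_apply, map_add, Representation.norm, LinearMap.sum_apply, sum_G, map_one,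
    Module.End.one_apply, map_mul, Module.End.mul_apply]
  abel

lemma mem_inv_iff (v : V) : v ∈ ρ.invariants ↔ X ρ v = 0 ∧ Y ρ v = 0 := by
  rw [Representation.mem_invariants, X_apply, Y_apply]
  constructor
  · intro h
    rw [h, h]
    exact ⟨add_self k _, add_self k _⟩
  · rintro ⟨h1, h2⟩ g
    have h1' : ρ ga v = v := by rw [add_eq_zero_iff_eq_neg, neg_eq k] at h1; exact h1
    have h2' : ρ gb v = v := by rw [add_eq_zero_iff_eq_neg, neg_eq k] at h2; exact h2
    rcases cases_G g with rfl | rfl | rfl | rfl
    · simp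
    · exact h1'
    · exact h2'
    · rw [map_mul, Module.End.mul_apply, h2', h1']

/-- The augmentation submodule `I_G V`. -/
noncomputable def aug : Submodule k V := LinearMap.range (X ρ) ⊔ LinearMap.range (Y ρ)

lemma sub_mem_aug (g : G) (v : V) : ρ g v - v ∈ aug ρ := by
  have hX : ∀ w, ρ ga w - w ∈ aug ρ := fun w => Submodule.mem_sup_left ⟨w, rfl⟩
  have hY : ∀ w, ρ gb w - w ∈ aug ρ := fun w => Submodule.mem_sup_right ⟨w, rfl⟩
  rcases cases_G g with rfl | rfl | rfl | rfl
  · simp
  · exact hX v
  · exact hY v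
  · rw [map_mul, Module.End.mul_apply]
    have : ρ ga (ρ gb v) - v = (ρ ga (ρ gb v) - ρ gb v) + (ρ gb v - v) := by abel
    rw [this]
    exact add_mem (hX _) (hY _)

variable [FiniteDimensional k V]

/-- the rank of the norm element -/
noncomputable def rk : ℕ := Module.finrank k (LinearMap.range ρ.norm)

/-- the dimension of the core -/
noncomputable def cd : ℤ := (Module.finrank k V : ℤ) - 4 * (rk ρ : ℤ)

lemma finrank_inv_le : Module.finrank k V ≤ 4 * Module.finrank k ρ.invariants := by
  -- dim V ≤ 2 dim ker X ≤ 4 dim (ker X ∩ ker Y)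
  have h1 : Module.finrank k V ≤ 2 * Module.finrank k (LinearMap.ker (X ρ)) := by
    have h := LinearMap.finrank_range_add_finrank_ker (X ρ)
    have h2 : LinearMap.range (X ρ) ≤ LinearMap.ker (X ρ) := by
      rintro _ ⟨v, rfl⟩
      exact X_X ρ v
    have h3 := Submodule.finrank_mono h2
    omega
  have h2 : Module.finrank k (LinearMap.ker (X ρ)) ≤ 2 * Module.finrank k ρ.invariants := by
    let Y' : LinearMap.ker (X ρ) →ₗ[k] LinearMap.ker (X ρ) :=
      (Y ρ).restrict (fun v hv => by
        rw [LinearMap.mem_ker] at hv ⊢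
        rw [X_Y, hv, map_zero])
    have hY' : ∀ v, (Y' v : V) = Y ρ v := fun v => rfl
    have h := LinearMap.finrank_range_add_finrank_ker Y'
    have h2 : LinearMap.range Y' ≤ LinearMap.ker Y' := by
      rintro _ ⟨v, rfl⟩
      rw [LinearMap.mem_ker]
      ext
      rw [hY', hY', Y_Y]
      rfl
    have h3 := Submodule.finrank_mono h2
    have h4 : Module.finrank k (LinearMap.ker Y') ≤ Module.finrank k ρ.invariants := by
      have h5 : Module.finrank k ((LinearMap.ker Y').map (LinearMap.ker (X ρ)).subtype)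
          = Module.finrank k (LinearMap.ker Y') := Submodule.finrank_map_subtype_eq _ _
      rw [← h5]
      apply Submodule.finrank_mono
      rintro _ ⟨v, hv, rfl⟩
      rw [mem_inv_iff]
      refine ⟨v.2, ?_⟩
      have := congrArg Subtype.val (LinearMap.mem_ker.1 hv)
      exact this
    omega
  omega

lemma four_rk_le : 4 * rk ρ ≤ Module.finrank k V := by
  have h1 : 2 * Module.finrank k (LinearMap.range (Y ρ)) ≤ Module.finrank k V := by
    have h := LinearMap.finrank_range_add_finrank_ker (Y ρ)
    have h2 : LinearMap.range (Y ρ) ≤ LinearMap.ker (Y ρ) := by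
      rintro _ ⟨v, rfl⟩
      exact Y_Y ρ v
    have h3 := Submodule.finrank_mono h2
    omega
  let X' : LinearMap.range (Y ρ) →ₗ[k] LinearMap.range (Y ρ) :=
    (X ρ).restrict (fun v hv => by
      obtain ⟨w, rfl⟩ := hv
      exact ⟨X ρ w, (X_Y ρ w).symm⟩)
  have hX' : ∀ v, (X' v : V) = X ρ v := fun v => rfl
  have h := LinearMap.finrank_range_add_finrank_ker X'
  have h2 : LinearMap.range X' ≤ LinearMap.ker X' := by
    rintro _ ⟨v, rfl⟩
    rw [LinearMap.mem_ker]
    ext
    rw [hX', hX', X_X]
    rfl
  have h3 := Submodule.finrank_mono h2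
  have h4 : rk ρ ≤ Module.finrank k (LinearMap.range X') := by
    rw [rk, ← Submodule.finrank_map_subtype_eq (LinearMap.range (Y ρ)) (LinearMap.range X')]
    apply Submodule.finrank_mono
    rintro _ ⟨v, rfl⟩
    refine ⟨X' ⟨Y ρ v, v, rfl⟩, ⟨_, rfl⟩, ?_⟩
    rw [norm_eq]
    rfl
  omega

lemma rk_add_ker : rk ρ + Module.finrank k (LinearMap.ker ρ.norm) = Module.finrank k V :=
  LinearMap.finrank_range_add_finrank_ker _

end basic

/-- Higman's criterion for relative projectivity. -/
def Hig {V : Type} [AddCommGroup V] [Module k V] (ρ : Representation k G V) : Prop :=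
  ∃ φ : V →ₗ[k] V, ∀ v, ∑ g, ρ g (φ (ρ g⁻¹ v)) = v

section hig

variable {V : Type} [AddCommGroup V] [Module k V] {ρ : Representation k G V}

lemma Hig.inv_le (h : Hig ρ) : ρ.invariants ≤ LinearMap.range ρ.norm := by
  obtain ⟨φ, hφ⟩ := h
  intro v hv
  refine ⟨φ v, ?_⟩
  rw [Representation.norm, LinearMap.sum_apply]
  conv_rhs => rw [← hφ v]
  refine Finset.sum_congr rfl fun g _ => ?_
  rw [hv]

lemma norm_mem_inv (ρ : Representation k G V) : LinearMap.range ρ.norm ≤ ρ.invariants := by
  rintro _ ⟨v, rfl⟩ g
  exact Representation.self_norm_apply ρ g v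

lemma Hig.range_eq (h : Hig ρ) : LinearMap.range ρ.norm = ρ.invariants :=
  le_antisymm (norm_mem_inv ρ) h.inv_le

lemma Hig.ker_eq (h : Hig ρ) : LinearMap.ker ρ.norm = aug ρ := by
  apply le_antisymm
  · obtain ⟨φ, hφ⟩ := h
    intro v hv
    rw [LinearMap.mem_ker, Representation.norm, LinearMap.sum_apply] at hv
    have h1 : ∑ g, φ (ρ g⁻¹ v) = 0 := by
      rw [← map_sum]
      have : ∑ g : G, ρ g⁻¹ v = ∑ g : G, ρ g v :=
        Fintype.sum_equiv (Equiv.inv G) _ _ fun g => rfl
      rw [this, hv, map_zero]
    have h2 : v = ∑ g, (ρ g (φ (ρ g⁻¹ v)) - φ (ρ g⁻¹ v)) := by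
      rw [Finset.sum_sub_distrib, hφ, h1, sub_zero]
    rw [h2]
    exact sum_mem fun g _ => sub_mem_aug ρ g _
  · rw [aug, sup_le_iff]
    constructor
    · rintro _ ⟨v, rfl⟩
      rw [LinearMap.mem_ker, X, LinearMap.sub_apply, map_sub, Representation.norm_self_apply]
      simp
    · rintro _ ⟨v, rfl⟩
      rw [LinearMap.mem_ker, Y, LinearMap.sub_apply, map_sub, Representation.norm_self_apply]
      simp

lemma Hig.finrank_eq [FiniteDimensional k V] (h : Hig ρ) : Module.finrank k V = 4 * rk ρ := by
  have h1 := finrank_inv_le ρ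
  have h2 := four_rk_le ρ
  rw [rk] at *
  rw [← h.range_eq] at h1
  omega

variable {W : Type} [AddCommGroup W] [Module k W] (τ : Representation k G W)

lemma Hig.tprod_right (h : Hig ρ) : Hig (ρ.tprod τ) := by
  obtain ⟨φ, hφ⟩ := h
  refine ⟨TensorProduct.map φ LinearMap.id, fun x => ?_⟩
  induction x with
  | zero => simp
  | add x y hx hy =>
    simp only [map_add, Finset.sum_add_distrib, hx, hy]
  | tmul v w =>
    simp only [Representation.tprod_apply, TensorProduct.map_tmul, LinearMap.id_apply]
    have : ∀ g : G, τ g (τ g⁻¹ w) = w := fun g => by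
      rw [← Module.End.mul_apply, ← map_mul, mul_inv_cancel, map_one, Module.End.one_apply]
    simp only [this]
    rw [← TensorProduct.sum_tmul, hφ]

lemma Hig.tprod_left (h : Hig ρ) : Hig (τ.tprod ρ) := by
  obtain ⟨φ, hφ⟩ := h
  refine ⟨TensorProduct.map LinearMap.id φ, fun x => ?_⟩
  induction x with
  | zero => simp
  | add x y hx hy =>
    simp only [map_add, Finset.sum_add_distrib, hx, hy]
  | tmul v w =>
    simp only [Representation.tprod_apply, TensorProduct.map_tmul, LinearMap.id_apply]
    have : ∀ g : G, τ g (τ g⁻¹ v) = v := fun g => by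
      rw [← Module.End.mul_apply, ← map_mul, mul_inv_cancel, map_one, Module.End.one_apply]
    simp only [this]
    rw [← TensorProduct.tmul_sum, hφ]

end hig

/-- Short exact sequences of representations. -/
structure SES {A F C : Type} [AddCommGroup A] [Module k A] [AddCommGroup F] [Module k F]
    [AddCommGroup C] [Module k C] (ρA : Representation k G A) (ρF : Representation k G F)
    (ρC : Representation k G C) where
  i : A →ₗ[k] F
  p : F →ₗ[k] C
  hi : ∀ g x, i (ρA g x) = ρF g (i x)
  hp : ∀ g x, p (ρF g x) = ρC g (p x)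
  inj : Function.Injective i
  surj : Function.Surjective p
  ex : Function.Exact i p

section ses

variable {A F C : Type} [AddCommGroup A] [Module k A] [AddCommGroup F] [Module k F]
    [AddCommGroup C] [Module k C] {ρA : Representation k G A} {ρF : Representation k G F}
    {ρC : Representation k G C} (S : SES ρA ρF ρC)

lemma map_X {V W : Type} [AddCommGroup V] [Module k V] [AddCommGroup W] [Module k W]
    {ρ : Representation k G V} {σ : Representation k G W} (f : V →ₗ[k] W)
    (hf : ∀ g x, f (ρ g x) = σ g (f x)) (v : V) : f (X ρ v) = X σ (f v) := by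
  rw [X_apply, X_apply, map_add, hf]

lemma map_Y {V W : Type} [AddCommGroup V] [Module k V] [AddCommGroup W] [Module k W]
    {ρ : Representation k G V} {σ : Representation k G W} (f : V →ₗ[k] W)
    (hf : ∀ g x, f (ρ g x) = σ g (f x)) (v : V) : f (Y ρ v) = Y σ (f v) := by
  rw [Y_apply, Y_apply, map_add, hf]

lemma map_norm {V W : Type} [AddCommGroup V] [Module k V] [AddCommGroup W] [Module k W]
    {ρ : Representation k G V} {σ : Representation k G W} (f : V →ₗ[k] W)
    (hf : ∀ g x, f (ρ g x) = σ g (f x)) (v : V) : f (ρ.norm v) = σ.norm (f v) := by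
  rw [norm_eq, norm_eq, map_X f hf, map_Y f hf]

variable [FiniteDimensional k A] [FiniteDimensional k F] [FiniteDimensional k C]

include S in
lemma SES.finrank_add : Module.finrank k F = Module.finrank k A + Module.finrank k C := by
  have h := LinearMap.finrank_range_add_finrank_ker S.p
  rw [LinearMap.range_eq_top.2 S.surj, finrank_top, LinearMap.exact_iff.1 S.ex,
    LinearMap.finrank_range_of_inj S.inj] at h
  omega

include S in
/-- `cd` of a syzygy. -/
lemma SES.cd_left (hF : Hig ρF) :
    cd ρA = 3 * (Module.finrank k C : ℤ) - 4 * (Module.finrank k (aug ρC) : ℤ) := by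
  have h1 := S.finrank_add
  have h2 := hF.finrank_eq
  have h3 := rk_add_ker ρA
  have h4 := rk_add_ker ρF
  -- finrank aug F = finrank ker norm_A + finrank aug C
  have h5 : (aug ρF).map S.p = aug ρC := by
    rw [aug, aug, Submodule.map_sup, ← LinearMap.range_comp, ← LinearMap.range_comp]
    have e1 : S.p ∘ₗ X ρF = X ρC ∘ₗ S.p := LinearMap.ext fun v => map_X S.p S.hp v
    have e2 : S.p ∘ₗ Y ρF = Y ρC ∘ₗ S.p := LinearMap.ext fun v => map_Y S.p S.hp v
    rw [e1, e2, LinearMap.range_comp_of_range_eq_top _ (LinearMap.range_eq_top.2 S.surj),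
      LinearMap.range_comp_of_range_eq_top _ (LinearMap.range_eq_top.2 S.surj)]
  have h6 : Module.finrank k (aug ρF) = Module.finrank k (aug ρC)
      + Module.finrank k (LinearMap.ker ρA.norm) := by
    let p' : aug ρF →ₗ[k] C := S.p ∘ₗ (aug ρF).subtype
    have h7 := LinearMap.finrank_range_add_finrank_ker p'
    have h8 : LinearMap.range p' = aug ρC := by
      rw [LinearMap.range_comp, Submodule.range_subtype, h5]
    have h9 : Module.finrank k (LinearMap.ker p') = Module.finrank k (LinearMap.ker ρA.norm) := by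
      rw [← Submodule.finrank_map_subtype_eq]
      have h10 : (LinearMap.ker p').map (aug ρF).subtype = (LinearMap.ker ρA.norm).map S.i := by
        ext x
        constructor
        · rintro ⟨y, hy, rfl⟩
          have hy' : S.p y = 0 := hy
          obtain ⟨a, ha⟩ := (S.ex _).1 hy'
          refine ⟨a, ?_, ha⟩
          have hy2 : (y : F) ∈ LinearMap.ker ρF.norm := by rw [hF.ker_eq]; exact y.2
          change ρA.norm a = 0
          apply S.inj
          rw [map_zero, map_norm S.i S.hi, ha]
          exact hy2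
        · rintro ⟨a, ha, rfl⟩
          have ha' : ρA.norm a = 0 := ha
          have h11 : S.i a ∈ aug ρF := by
            rw [← hF.ker_eq, LinearMap.mem_ker, ← map_norm S.i S.hi, ha', map_zero]
          refine ⟨⟨S.i a, h11⟩, ?_, rfl⟩
          exact (S.ex _).2 ⟨a, rfl⟩
      rw [h10]
      exact (Submodule.equivMapOfInjective S.i S.inj _).finrank_eq.symm
    rw [h8] at h7
    omega
  rw [hF.ker_eq] at h4
  rw [cd]
  omega

include S in
/-- `cd` of a cosyzygy. -/
lemma SES.cd_right (hF : Hig ρF) :
    cd ρC = 4 * (Module.finrank k ρA.invariants : ℤ) - (Module.finrank k A : ℤ) := by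
  have h1 := S.finrank_add
  have h2 := hF.finrank_eq
  have h3 := rk_add_ker ρC
  have h4 := rk_add_ker ρF
  have h5 : LinearMap.range ρC.norm = ρF.invariants.map S.p := by
    rw [← hF.range_eq, ← LinearMap.range_comp]
    have e1 : S.p ∘ₗ ρF.norm = ρC.norm ∘ₗ S.p := LinearMap.ext fun v => map_norm S.p S.hp v
    rw [e1, LinearMap.range_comp_of_range_eq_top _ (LinearMap.range_eq_top.2 S.surj)]
  have h6 : Module.finrank k ρF.invariants = rk ρC + Module.finrank k ρA.invariants := by
    let p' : ρF.invariants →ₗ[k] C := S.p ∘ₗ ρF.invariants.subtype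
    have h7 := LinearMap.finrank_range_add_finrank_ker p'
    have h8 : LinearMap.range p' = LinearMap.range ρC.norm := by
      rw [LinearMap.range_comp, Submodule.range_subtype, h5]
    have h9 : Module.finrank k (LinearMap.ker p') = Module.finrank k ρA.invariants := by
      rw [← Submodule.finrank_map_subtype_eq]
      have h10 : (LinearMap.ker p').map ρF.invariants.subtype = ρA.invariants.map S.i := by
        ext x
        constructor
        · rintro ⟨y, hy, rfl⟩
          have hy' : S.p y = 0 := hy
          obtain ⟨a, ha⟩ := (S.ex _).1 hy'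
          refine ⟨a, fun g => ?_, ha⟩
          apply S.inj
          rw [S.hi, ha]
          exact y.2 g
        · rintro ⟨a, ha, rfl⟩
          refine ⟨⟨S.i a, fun g => ?_⟩, ?_, rfl⟩
          · rw [← S.hi, ha]
          · exact (S.ex _).2 ⟨a, rfl⟩
      rw [h10]
      exact (Submodule.equivMapOfInjective S.i S.inj _).finrank_eq.symm
    rw [h8] at h7
    rw [rk]
    omega
  have h7 : rk ρF = Module.finrank k ρF.invariants := by rw [rk, hF.range_eq]
  rw [cd]
  omega

end ses

end Pool.Agent.Y56.Om
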