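import Pool.Agent.Y56.Om.Stab

set_option autoImplicit false
set_option linter.unusedSectionVars false
set_option linter.unusedVariables false

open TensorProduct

namespace Pool.Agent.Y56.Om

variable {k : Type} [Field k] [CharP k 2]

section mk

variable {V : Type} [AddCommGroup V] [Module k V]

lemma zcases (s : Multiplicative (ZMod 2)) : s = 1 ∨ s = Multiplicative.ofAdd 1 := by
  revert s; decide

/-- `1` at the identity and `1 + x` at the involution -/
noncomputable def pw (x : V →ₗ[k] V) (s : Multiplicative (ZMod 2)) : V →ₗ[k] V :=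
  if s = 1 then 1 else 1 + x

lemma pw_one (x : V →ₗ[k] V) : pw x 1 = 1 := if_pos rfl
lemma pw_gen (x : V →ₗ[k] V) : pw x (Multiplicative.ofAdd 1) = 1 + x :=
  if_neg (by decide)

lemma pw_mul (x : V →ₗ[k] V) (hx : x * x = 0) (s t : Multiplicative (ZMod 2)) :
    pw x (s * t) = pw x s * pw x t := by
  have h2 : (1 + x) * (1 + x) = (1 : V →ₗ[k] V) := by
    have : (1 + x) * (1 + x) = 1 + (x + x) + x * x := by noncomm_ring
    rw [this, hx]
    ext v
    simp only [LinearMap.add_apply, Module.End.one_apply, LinearMap.zero_apply]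
    rw [add_self k (x v)]
    simp
  rcases zcases s with rfl | rfl <;> rcases zcases t with rfl | rfl
  · simp [pw_one]
  · simp [pw_one]
  · simp [pw_one]
  · rw [pw_gen, h2]
    have : (Multiplicative.ofAdd (1 : ZMod 2)) * Multiplicative.ofAdd 1 = 1 := by decide
    rw [this, pw_one]

lemma pw_comm (x y : V →ₗ[k] V) (h : x * y = y * x) (s t : Multiplicative (ZMod 2)) :
    pw x s * pw y t = pw y t * pw x s := by
  rcases zcases s with rfl | rfl <;> rcases zcases t with rfl | rfl
  · simp [pw_one]
  · simp [pw_one]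
  · simp [pw_one]
  · rw [pw_gen, pw_gen]
    have h1 : (1 + x) * (1 + y) = 1 + x + y + x * y := by noncomm_ring
    have h2 : (1 + y) * (1 + x) = 1 + x + y + y * x := by noncomm_ring
    rw [h1, h2, h]

/-- The representation of the Klein four group given by `a = 1 + x`, `b = 1 + y`. -/
noncomputable def mkRep (x y : V →ₗ[k] V) (hx : x * x = 0) (hy : y * y = 0)
    (h : x * y = y * x) : Representation k G V where
  toFun g := pw x g.1 * pw y g.2
  map_one' := by simp [pw_one]
  map_mul' g g' := by
    simp only [Prod.fst_mul, Prod.snd_mul]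
    rw [pw_mul x hx, pw_mul y hy]
    calc pw x g.1 * pw x g'.1 * (pw y g.2 * pw y g'.2)
        = pw x g.1 * (pw x g'.1 * pw y g.2) * pw y g'.2 := by noncomm_ring
      _ = pw x g.1 * (pw y g.2 * pw x g'.1) * pw y g'.2 := by rw [pw_comm x y h]
      _ = _ := by noncomm_ring

variable {x y : V →ₗ[k] V} {hx : x * x = 0} {hy : y * y = 0} {h : x * y = y * x}

lemma mkRep_ga (v : V) : mkRep x y hx hy h ga v = v + x v := by
  change (pw x (Multiplicative.ofAdd 1) * pw y 1) v = _
  rw [pw_one, pw_gen]
  simp

lemma mkRep_gb (v : V) : mkRep x y hx hy h gb v = v + y v := by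
  change (pw x 1 * pw y (Multiplicative.ofAdd 1)) v = _
  rw [pw_one, pw_gen]
  simp

lemma X_mkRep (v : V) : X (mkRep x y hx hy h) v = x v := by
  rw [X, LinearMap.sub_apply, mkRep_ga]
  simp

lemma Y_mkRep (v : V) : Y (mkRep x y hx hy h) v = y v := by
  rw [Y, LinearMap.sub_apply, mkRep_gb]
  simp

end mk

/-- equivariance can be checked on `X` and `Y` -/
lemma equivariant_of {V W : Type} [AddCommGroup V] [Module k V] [AddCommGroup W] [Module k W]
    {ρ : Representation k G V} {σ : Representation k G W} (f : V →ₗ[k] W)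
    (hX : ∀ v, f (X ρ v) = X σ (f v)) (hY : ∀ v, f (Y ρ v) = Y σ (f v)) (g : G) (v : V) :
    f (ρ g v) = σ g (f v) := by
  have h1 : ∀ v, f (ρ ga v) = σ ga (f v) := fun v => by
    have := hX v
    rw [X_apply, X_apply, map_add] at this
    exact add_right_cancel this
  have h2 : ∀ v, f (ρ gb v) = σ gb (f v) := fun v => by
    have := hY v
    rw [Y_apply, Y_apply, map_add] at this
    exact add_right_cancel this
  rcases cases_G g with rfl | rfl | rfl | rfl
  · simp
  · exact h1 v
  · exact h2 v
  · rw [map_mul, map_mul, Module.End.mul_apply, Module.End.mul_apply, h1, h2]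

section U

/-- the space of `Ω^n(k)` -/
abbrev UV (k : Type) (n : ℕ) : Type := (Fin (n + 1) → k) × (Fin n → k)

variable (k)

noncomputable def Ux (n : ℕ) : UV k n →ₗ[k] UV k n where
  toFun v := (0, fun j => v.1 j.succ)
  map_add' v w := by ext <;> simp
  map_smul' c v := by ext <;> simp

noncomputable def Uy (n : ℕ) : UV k n →ₗ[k] UV k n where
  toFun v := (0, fun j => v.1 j.castSucc)
  map_add' v w := by ext <;> simp
  map_smul' c v := by ext <;> simp

/-- `Ω^n(k)` -/
noncomputable def U (n : ℕ) : Representation k G (UV k n) :=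
  mkRep (Ux k n) (Uy k n) (by ext <;> simp [Ux]) (by ext <;> simp [Uy])
    (by ext <;> simp [Ux, Uy])

/-- the space of `Ω^{-n}(k)` -/
abbrev DV (k : Type) (n : ℕ) : Type := (Fin n → k) × (Fin (n + 1) → k)

noncomputable def Dx (n : ℕ) : DV k n →ₗ[k] DV k n where
  toFun v := (0, Fin.snoc (α := fun _ => k) v.1 0)
  map_add' v w := by
    refine Prod.ext (by simp) ?_
    funext j
    refine Fin.lastCases ?_ (fun j => ?_) j <;> simp
  map_smul' c v := by
    refine Prod.ext (by simp) ?_
    funext j
    refine Fin.lastCases ?_ (fun j => ?_) j <;> simp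

noncomputable def Dy (n : ℕ) : DV k n →ₗ[k] DV k n where
  toFun v := (0, Fin.cons (α := fun _ => k) 0 v.1)
  map_add' v w := by
    refine Prod.ext (by simp) ?_
    funext j
    refine Fin.cases ?_ (fun j => ?_) j <;> simp
  map_smul' c v := by
    refine Prod.ext (by simp) ?_
    funext j
    refine Fin.cases ?_ (fun j => ?_) j <;> simp

lemma Dx_apply (n : ℕ) (v : DV k n) : Dx k n v = (0, Fin.snoc (α := fun _ => k) v.1 0) := rfl
lemma Dy_apply (n : ℕ) (v : DV k n) : Dy k n v = (0, Fin.cons (α := fun _ => k) 0 v.1) := rfl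
lemma Ux_apply (n : ℕ) (v : UV k n) : Ux k n v = (0, fun j => v.1 j.succ) := rfl
lemma Uy_apply (n : ℕ) (v : UV k n) : Uy k n v = (0, fun j => v.1 j.castSucc) := rfl

lemma snoc_zero (n : ℕ) : (Fin.snoc (α := fun _ => k) (0 : Fin n → k) 0 : Fin (n+1) → k) = 0 := by
  funext j
  refine Fin.lastCases ?_ (fun j => ?_) j <;> simp

lemma cons_zero (n : ℕ) : (Fin.cons (α := fun _ => k) 0 (0 : Fin n → k) : Fin (n+1) → k) = 0 := by
  funext j
  refine Fin.cases ?_ (fun j => ?_) j <;> simp

/-- `Ω^{-n}(k)` -/
noncomputable def D (n : ℕ) : Representation k G (DV k n) :=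
  mkRep (Dx k n) (Dy k n)
    (LinearMap.ext fun v => by
      rw [Module.End.mul_apply, Dx_apply, Dx_apply]; simp only; rw [snoc_zero]; rfl)
    (LinearMap.ext fun v => by
      rw [Module.End.mul_apply, Dy_apply, Dy_apply]; simp only; rw [cons_zero]; rfl)
    (LinearMap.ext fun v => by
      rw [Module.End.mul_apply, Module.End.mul_apply, Dx_apply, Dy_apply, Dx_apply, Dy_apply]
      simp only; rw [cons_zero, snoc_zero])

/-- the space of `(kG)^{n+1}` -/
abbrev FV (k : Type) (n : ℕ) : Type :=
  ((Fin (n + 1) → k) × (Fin (n + 1) → k)) × ((Fin (n + 1) → k) × (Fin (n + 1) → k))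

noncomputable def Fx (n : ℕ) : FV k n →ₗ[k] FV k n where
  toFun v := ((0, v.1.1), (0, v.2.1))
  map_add' v w := by simp
  map_smul' c v := by simp

noncomputable def Fy (n : ℕ) : FV k n →ₗ[k] FV k n where
  toFun v := ((0, 0), (v.1.1, v.1.2))
  map_add' v w := by simp; rfl
  map_smul' c v := by simp; rfl

lemma Fx_apply (n : ℕ) (v : FV k n) : Fx k n v = ((0, v.1.1), (0, v.2.1)) := rfl
lemma Fy_apply (n : ℕ) (v : FV k n) : Fy k n v = ((0, 0), (v.1.1, v.1.2)) := rfl

/-- `(kG)^{n+1}` -/
noncomputable def Fr (n : ℕ) : Representation k G (FV k n) :=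
  mkRep (Fx k n) (Fy k n)
    (LinearMap.ext fun v => by
      rw [Module.End.mul_apply, Fx_apply, Fx_apply]; rfl)
    (LinearMap.ext fun v => by
      rw [Module.End.mul_apply, Fy_apply, Fy_apply]; rfl)
    (LinearMap.ext fun v => by
      rw [Module.End.mul_apply, Module.End.mul_apply, Fx_apply, Fy_apply, Fx_apply, Fy_apply])

lemma hig_Fr (n : ℕ) : Hig (Fr k n) := by
  refine ⟨{ toFun := fun v => ((v.1.1 + v.1.2 + v.2.1 + v.2.2, 0), (0, 0)),
            map_add' := ?_, map_smul' := ?_ }, ?_⟩
  · intro v w
    simp only [Prod.fst_add, Prod.snd_add, Prod.mk_add_mk, add_zero]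
    refine Prod.ext (Prod.ext ?_ rfl) rfl
    simp only
    abel
  · intro c v
    simp [smul_add]
  · intro v
    rw [sum_G]
    have e1 : (1 : G)⁻¹ = 1 := by decide
    have e2 : (ga)⁻¹ = ga := by decide
    have e3 : (gb)⁻¹ = gb := by decide
    have e4 : (ga * gb)⁻¹ = ga * gb := by decide
    rw [e1, e2, e3, e4]
    obtain ⟨⟨a, x⟩, ⟨y, z⟩⟩ := v
    simp only [map_one, Module.End.one_apply, map_mul, Module.End.mul_apply, Fr, mkRep_ga, mkRep_gb,
      Fx_apply, Fy_apply, LinearMap.coe_mk, AddHom.coe_mk, Prod.mk_add_mk, add_zero, zero_add]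
    have h2 : (2 : k) = 0 := CharP.cast_eq_zero k 2
    refine Prod.ext (Prod.ext ?_ ?_) (Prod.ext ?_ ?_)
    · funext i
      simp only [Pi.add_apply]
      linear_combination (4 * a i + 3 * x i + 3 * y i + 2 * z i) * h2
    · funext i
      simp only [Pi.add_apply]
      linear_combination (3 * a i + x i + 2 * y i + z i) * h2
    · funext i
      simp only [Pi.add_apply]
      linear_combination (3 * a i + 2 * x i + y i + z i) * h2
    · funext i
      simp only [Pi.add_apply]
      linear_combination (2 * a i + x i + y i) * h2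

/-- `0 → Ω^{n+1} → (kG)^{n+1} → Ω^n → 0` -/
noncomputable def sesU (n : ℕ) : SES (U k (n + 1)) (Fr k n) (U k n) where
  i := { toFun := fun v => ((0, fun j => v.1 j.castSucc), (fun j => v.1 j.succ, v.2))
         map_add' := fun v w => by simp; exact ⟨rfl, rfl⟩
         map_smul' := fun c v => by simp; exact ⟨rfl, rfl⟩ }
  p := { toFun := fun v => (v.1.1, fun j => v.1.2 j.succ + v.2.1 j.castSucc)
         map_add' := fun v w => by
          refine Prod.ext rfl ?_
          funext j
          simp only [Prod.fst_add, Prod.snd_add, Pi.add_apply, Prod.mk_add_mk]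
          ring
         map_smul' := fun c v => by
          refine Prod.ext rfl ?_
          funext j
          simp [mul_add] }
  hi := equivariant_of _
    (fun v => by
      rw [U, Fr, X_mkRep, X_mkRep, Ux_apply, Fx_apply]
      simp only [LinearMap.coe_mk, AddHom.coe_mk]
      rfl)
    (fun v => by
      rw [U, Fr, Y_mkRep, Y_mkRep, Uy_apply, Fy_apply]
      simp only [LinearMap.coe_mk, AddHom.coe_mk]
      rfl)
  hp := equivariant_of _
    (fun v => by
      rw [U, Fr, X_mkRep, X_mkRep, Ux_apply, Fx_apply]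
      simp only [LinearMap.coe_mk, AddHom.coe_mk]
      refine Prod.ext rfl ?_
      funext j
      simp)
    (fun v => by
      rw [U, Fr, Y_mkRep, Y_mkRep, Uy_apply, Fy_apply]
      simp only [LinearMap.coe_mk, AddHom.coe_mk]
      refine Prod.ext rfl ?_
      funext j
      simp)
  inj := by
    intro v w h
    simp only [LinearMap.coe_mk, AddHom.coe_mk, Prod.mk.injEq, true_and] at h
    obtain ⟨h1, h2, h3⟩ := h
    refine Prod.ext ?_ h3
    funext j
    refine Fin.lastCases ?_ (fun j => ?_) j
    · exact congrFun h2 (Fin.last n)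
    · exact congrFun h1 j
  surj := by
    intro v
    refine ⟨((v.1, Fin.cons (α := fun _ => k) 0 v.2), (0, 0)), ?_⟩
    refine Prod.ext rfl ?_
    funext j
    simp
  ex := by
    intro v
    constructor
    · intro h
      simp only [LinearMap.coe_mk, AddHom.coe_mk] at h
      have h1 : v.1.1 = 0 := congrArg Prod.fst h
      have h2 : ∀ j : Fin n, v.1.2 j.succ + v.2.1 j.castSucc = 0 :=
        fun j => congrFun (congrArg Prod.snd h) j
      have h3 : ∀ j : Fin n, v.1.2 j.succ = v.2.1 j.castSucc := fun j => by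
        have := h2 j
        rw [add_eq_zero_iff_eq_neg, neg_eq k] at this
        exact this
      refine ⟨(Fin.cons (α := fun _ => k) (v.1.2 0) v.2.1, v.2.2), ?_⟩
      refine Prod.ext (Prod.ext h1.symm ?_) (Prod.ext ?_ rfl)
      · funext j
        refine Fin.cases ?_ (fun j => ?_) j
        · rfl
        · simp only [LinearMap.coe_mk, AddHom.coe_mk, ← Fin.succ_castSucc, Fin.cons_succ]
          exact (h3 j).symm
      · funext j
        simp
    · rintro ⟨w, rfl⟩
      refine Prod.ext rfl ?_
      funext j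
      simp only [LinearMap.coe_mk, AddHom.coe_mk]
      rw [Fin.succ_castSucc]
      exact add_self k _

/-- `0 → Ω^{-n} → (kG)^{n+1} → Ω^{-n-1} → 0` -/
noncomputable def sesD (n : ℕ) : SES (D k n) (Fr k n) (D k (n + 1)) where
  i := { toFun := fun v => ((0, Fin.cons (α := fun _ => k) 0 v.1),
            (Fin.snoc (α := fun _ => k) v.1 0, v.2))
         map_add' := fun v w => by
          refine Prod.ext (Prod.ext (by simp) ?_) (Prod.ext ?_ rfl)
          · funext j
            refine Fin.cases ?_ (fun j => ?_) j <;> simp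
          · funext j
            refine Fin.lastCases ?_ (fun j => ?_) j <;> simp
         map_smul' := fun c v => by
          refine Prod.ext (Prod.ext (by simp) ?_) (Prod.ext ?_ rfl)
          · funext j
            refine Fin.cases ?_ (fun j => ?_) j <;> simp
          · funext j
            refine Fin.lastCases ?_ (fun j => ?_) j <;> simp }
  p := { toFun := fun v => (v.1.1, Fin.snoc (α := fun _ => k) v.1.2 0
            + Fin.cons (α := fun _ => k) 0 v.2.1)
         map_add' := fun v w => by
          refine Prod.ext rfl ?_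
          have e1 : (Fin.snoc (α := fun _ => k) (v.1.2 + w.1.2) 0 : Fin (n + 2) → k)
              = Fin.snoc (α := fun _ => k) v.1.2 0 + Fin.snoc (α := fun _ => k) w.1.2 0 := by
            funext j
            refine Fin.lastCases ?_ (fun j => ?_) j <;> simp
          have e2 : (Fin.cons (α := fun _ => k) 0 (v.2.1 + w.2.1) : Fin (n + 2) → k)
              = Fin.cons (α := fun _ => k) 0 v.2.1 + Fin.cons (α := fun _ => k) 0 w.2.1 := by
            funext j
            refine Fin.cases ?_ (fun j => ?_) j <;> simp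
          simp only [Prod.fst_add, Prod.snd_add, Prod.mk_add_mk]
          rw [e1, e2]
          abel
         map_smul' := fun c v => by
          refine Prod.ext rfl ?_
          have e1 : (Fin.snoc (α := fun _ => k) (c • v.1.2) 0 : Fin (n + 2) → k)
              = c • Fin.snoc (α := fun _ => k) v.1.2 0 := by
            funext j
            refine Fin.lastCases ?_ (fun j => ?_) j <;> simp
          have e2 : (Fin.cons (α := fun _ => k) 0 (c • v.2.1) : Fin (n + 2) → k)
              = c • Fin.cons (α := fun _ => k) 0 v.2.1 := by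
            funext j
            refine Fin.cases ?_ (fun j => ?_) j <;> simp
          simp only [Prod.smul_fst, Prod.smul_snd, Prod.smul_mk, RingHom.id_apply]
          rw [e1, e2, smul_add] }
  hi := equivariant_of _
    (fun v => by
      rw [D, Fr, X_mkRep, X_mkRep, Dx_apply, Fx_apply]
      simp only [LinearMap.coe_mk, AddHom.coe_mk]
      rw [cons_zero, snoc_zero])
    (fun v => by
      rw [D, Fr, Y_mkRep, Y_mkRep, Dy_apply, Fy_apply]
      simp only [LinearMap.coe_mk, AddHom.coe_mk]
      rw [cons_zero, snoc_zero])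
  hp := equivariant_of _
    (fun v => by
      rw [D, Fr, X_mkRep, X_mkRep, Dx_apply, Fx_apply]
      simp only [LinearMap.coe_mk, AddHom.coe_mk]
      rw [cons_zero, add_zero])
    (fun v => by
      rw [D, Fr, Y_mkRep, Y_mkRep, Dy_apply, Fy_apply]
      simp only [LinearMap.coe_mk, AddHom.coe_mk]
      rw [snoc_zero, zero_add])
  inj := by
    intro v w h
    simp only [LinearMap.coe_mk, AddHom.coe_mk, Prod.mk.injEq, true_and] at h
    obtain ⟨h1, h2, h3⟩ := h
    refine Prod.ext ?_ h3
    funext j
    have := congrFun h1 j.succ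
    simpa using this
  surj := by
    intro v
    refine ⟨((v.1, fun j => v.2 j.castSucc), (fun j => if j = Fin.last n then v.2 (Fin.last _) else 0, 0)), ?_⟩
    refine Prod.ext rfl ?_
    funext j
    simp only [LinearMap.coe_mk, AddHom.coe_mk, Pi.add_apply]
    refine Fin.lastCases ?_ (fun j => ?_) j
    · rw [Fin.snoc_last, ← Fin.succ_last, Fin.cons_succ]
      simp
    · rw [Fin.snoc_castSucc]
      refine Fin.cases ?_ (fun j => ?_) j
      · simp
      · rw [← Fin.succ_castSucc, Fin.cons_succ]
        simp [Fin.castSucc_ne_last]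
  ex := by
    intro v
    constructor
    · intro h
      simp only [LinearMap.coe_mk, AddHom.coe_mk] at h
      have h1 : v.1.1 = 0 := congrArg Prod.fst h
      have h2 : ∀ j, ((Fin.snoc (α := fun _ => k) v.1.2 0
            + Fin.cons (α := fun _ => k) 0 v.2.1 : Fin (n + 2) → k)) j = 0 :=
        fun j => congrFun (congrArg Prod.snd h) j
      have h3 : v.1.2 0 = 0 := by
        have := h2 0
        rw [Pi.add_apply, ← Fin.castSucc_zero, Fin.snoc_castSucc, Fin.castSucc_zero,
          Fin.cons_zero, add_zero] at this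
        exact this
      have h4 : v.2.1 (Fin.last n) = 0 := by
        have := h2 (Fin.last _)
        rw [Pi.add_apply, Fin.snoc_last, ← Fin.succ_last, Fin.cons_succ, zero_add] at this
        exact this
      have h5 : ∀ j : Fin n, v.1.2 j.succ = v.2.1 j.castSucc := fun j => by
        have := h2 j.succ.castSucc
        rw [Pi.add_apply, Fin.snoc_castSucc, ← Fin.succ_castSucc, Fin.cons_succ,
          add_eq_zero_iff_eq_neg, neg_eq k] at this
        exact this
      refine ⟨(fun j => v.1.2 j.succ, v.2.2), ?_⟩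
      refine Prod.ext (Prod.ext h1.symm ?_) (Prod.ext ?_ rfl)
      · funext j
        refine Fin.cases ?_ (fun j => ?_) j
        · simp [h3]
        · simp
      · funext j
        refine Fin.lastCases ?_ (fun j => ?_) j
        · simp [h4]
        · simp [h5]
    · rintro ⟨w, rfl⟩
      refine Prod.ext rfl ?_
      funext j
      simp only [LinearMap.coe_mk, AddHom.coe_mk, Pi.add_apply]
      refine Fin.lastCases ?_ (fun j => ?_) j
      · rw [Fin.snoc_last, ← Fin.succ_last, Fin.cons_succ, Fin.snoc_last]
        simp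
      · rw [Fin.snoc_castSucc]
        refine Fin.cases ?_ (fun j => ?_) j
        · simp
        · rw [← Fin.succ_castSucc, Fin.cons_succ, Fin.cons_succ, Fin.snoc_castSucc]
          exact add_self k _

omit [CharP k 2] in
lemma cd_of_norm_zero {V : Type} [AddCommGroup V] [Module k V] [FiniteDimensional k V]
    (ρ : Representation k G V) (h : ∀ v, ρ.norm v = 0) : cd ρ = Module.finrank k V := by
  have h1 : rk ρ = 0 := by
    rw [rk]
    have : LinearMap.range ρ.norm = ⊥ := by
      rw [LinearMap.range_eq_bot]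
      exact LinearMap.ext h
    rw [this, finrank_bot]
  rw [cd, h1]
  simp

lemma cd_U (n : ℕ) : cd (U k n) = 2 * n + 1 := by
  rw [cd_of_norm_zero, Module.finrank_prod, Module.finrank_fin_fun, Module.finrank_fin_fun]
  · push_cast
    ring
  · intro v
    rw [norm_eq, U, X_mkRep, Y_mkRep, Ux_apply, Uy_apply]
    rfl

lemma cd_D (n : ℕ) : cd (D k n) = 2 * n + 1 := by
  rw [cd_of_norm_zero, Module.finrank_prod, Module.finrank_fin_fun, Module.finrank_fin_fun]
  · push_cast
    ring
  · intro v
    rw [norm_eq, D, X_mkRep, Y_mkRep, Dx_apply, Dy_apply]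
    simp only
    rw [snoc_zero]
    rfl

/-- `Ω^0(k) = k` -/
noncomputable def eU : UV k 0 ≃ₗ[k] k where
  toFun v := v.1 0
  invFun c := (fun _ => c, 0)
  map_add' v w := rfl
  map_smul' c v := rfl
  left_inv v := by
    refine Prod.ext ?_ (Subsingleton.elim _ _)
    funext j
    rw [Subsingleton.elim (α := Fin 1) j 0]
  right_inv c := rfl

noncomputable def eD : DV k 0 ≃ₗ[k] k where
  toFun v := v.2 0
  invFun c := (0, fun _ => c)
  map_add' v w := rfl
  map_smul' c v := rfl
  left_inv v := by
    refine Prod.ext (Subsingleton.elim _ _) ?_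
    funext j
    rw [Subsingleton.elim (α := Fin 1) j 0]
  right_inv c := rfl

lemma eU_equiv (g : G) (v : UV k 0) : eU k (U k 0 g v) = Representation.trivial k G k g (eU k v) := by
  refine equivariant_of (eU k).toLinearMap ?_ ?_ g v
  · intro v
    rw [U, X_mkRep, Ux_apply, X_apply]
    simp only [Representation.isTrivial_def, LinearMap.id_apply]
    rw [add_self k]
    rfl
  · intro v
    rw [U, Y_mkRep, Uy_apply, Y_apply]
    simp only [Representation.isTrivial_def, LinearMap.id_apply]
    rw [add_self k]
    rfl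

lemma eD_equiv (g : G) (v : DV k 0) : eD k (D k 0 g v) = Representation.trivial k G k g (eD k v) := by
  have hs : (Fin.snoc (α := fun _ => k) ((0 : Fin 0 → k)) 0 : Fin 1 → k) = 0 := snoc_zero k 0
  have hc : (Fin.cons (α := fun _ => k) 0 ((0 : Fin 0 → k)) : Fin 1 → k) = 0 := cons_zero k 0
  refine equivariant_of (eD k).toLinearMap ?_ ?_ g v
  · intro v
    rw [D, X_mkRep, Dx_apply, X_apply, Subsingleton.elim v.1 0, hs]
    simp only [Representation.isTrivial_def, LinearMap.id_apply]
    rw [add_self k]
    rfl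
  · intro v
    rw [D, Y_mkRep, Dy_apply, Y_apply, Subsingleton.elim v.1 0, hc]
    simp only [Representation.isTrivial_def, LinearMap.id_apply]
    rw [add_self k]
    rfl

section general
variable {C : Type} [AddCommGroup C] [Module k C] (σ : Representation k G C)

lemma rid_equivariant (g : G) (x : C ⊗[k] k) :
    TensorProduct.rid k C ((σ.tprod (Representation.trivial k G k)) g x)
      = σ g (TensorProduct.rid k C x) := by
  induction x with
  | zero => simp
  | add x y hx hy => simp only [map_add, hx, hy]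
  | tmul v w => simp [Representation.tprod_apply]

/-- `0 → C ⊗ Ω(k) → C ⊗ kG → C → 0` -/
noncomputable def syz : SES (σ.tprod (U k 1)) (σ.tprod (Fr k 0)) σ :=
  (((sesU k 0).congr_right (eU k) (eU_equiv k)).tprod_left σ).congr_right (TensorProduct.rid k C)
    (rid_equivariant k σ)

/-- `0 → C → C ⊗ kG → C ⊗ Ω^{-1}(k) → 0` -/
noncomputable def cosyz : SES σ (σ.tprod (Fr k 0)) (σ.tprod (D k 1)) :=
  (((sesD k 0).congr_left (eD k).symm (fun g x => by
    rw [LinearEquiv.symm_apply_eq, eD_equiv, LinearEquiv.apply_symm_apply])).tprod_left σ).congr_left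
    (TensorProduct.rid k C).symm (fun g x => by
      rw [LinearEquiv.symm_apply_eq, rid_equivariant, LinearEquiv.apply_symm_apply])

end general

lemma St_UU (n : ℕ) : St ((U k n).tprod (U k 1)) (U k (n + 1)) :=
  St.of_syz (syz k (U k n)) (sesU k n) ((hig_Fr k 0).tprod_left _) (hig_Fr k n)

lemma St_DU (n : ℕ) : St ((D k (n + 1)).tprod (U k 1)) (D k n) :=
  St.of_syz (syz k (D k (n + 1))) (sesD k n) ((hig_Fr k 0).tprod_left _) (hig_Fr k n)

lemma St_DD (n : ℕ) : St ((D k n).tprod (D k 1)) (D k (n + 1)) :=
  St.of_cosyz (cosyz k (D k n)) (sesD k n) ((hig_Fr k 0).tprod_left _) (hig_Fr k n)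

lemma St_UD (n : ℕ) : St ((U k (n + 1)).tprod (D k 1)) (U k n) :=
  St.of_cosyz (cosyz k (U k (n + 1))) (sesU k n) ((hig_Fr k 0).tprod_left _) (hig_Fr k n)

lemma St_U0 : St (U k 0) (Representation.trivial k G k) := St.of_equiv (eU k) (eU_equiv k)

lemma St_D0 : St (D k 0) (Representation.trivial k G k) := St.of_equiv (eD k) (eD_equiv k)

lemma St_U0_D0 : St (U k 0) (D k 0) := (St_U0 k).trans (St_D0 k).symm

/-- `M = Ω(k) ⊕ Ω^{-1}(k)` -/
noncomputable def MR : Representation k G (UV k 1 × DV k 1) := (U k 1).prod (D k 1)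

lemma St_U_M (n : ℕ) :
    St ((U k (n + 1)).tprod (MR k)) ((U k (n + 2)).prod (U k n)) :=
  (St_tprod_prod _ _ _).trans ((St_UU k (n + 1)).prod (St_UD k n))

lemma St_D_M (n : ℕ) :
    St ((D k (n + 1)).tprod (MR k)) ((D k n).prod (D k (n + 2))) :=
  (St_tprod_prod _ _ _).trans ((St_DU k n).prod (St_DD k (n + 1)))

lemma St_U0_M : St ((U k 0).tprod (MR k)) ((U k 1).prod (D k 1)) :=
  (St_tprod_prod _ _ _).trans ((St_UU k 0).prod (((St_U0_D0 k).tprod_right _).trans (St_DD k 0)))

lemma St_D0_M : St ((D k 0).tprod (MR k)) ((U k 1).prod (D k 1)) :=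
  (St_tprod_prod _ _ _).trans
    ((((St_U0_D0 k).symm.tprod_right _).trans (St_UU k 0)).prod (St_DD k 0))

end U

/-- the numbers `dim core (Ω^{±j}(k) ⊗ M^{⊗ n})` -/
def w : ℕ → ℕ → ℤ
  | 0, j => 2 * j + 1
  | n + 1, 0 => 2 * w n 1
  | n + 1, j + 1 => w n (j + 2) + w n j

variable (k) in
/-- If `τ n` are representations with `τ (n+1) = M ⊗ τ n` then the dimensions of the cores are
given by `w`. -/
lemma cd_eq_w (T : ℕ → Type) [∀ n, AddCommGroup (T n)] [∀ n, Module k (T n)]
    [∀ n, FiniteDimensional k (T n)] (τ : ∀ n, Representation k G (T n))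
    (h0 : St (τ 0) (Representation.trivial k G k))
    (hs : ∀ n, St (τ (n + 1)) ((MR k).tprod (τ n))) (n : ℕ) :
    ∀ j, cd ((U k j).tprod (τ n)) = w n j ∧ cd ((D k j).tprod (τ n)) = w n j := by
  have comm : ∀ {V W : Type} [AddCommGroup V] [Module k V] [FiniteDimensional k V]
      [AddCommGroup W] [Module k W] [FiniteDimensional k W] (α : Representation k G V)
      (β : Representation k G W), cd (α.tprod β) = cd (β.tprod α) := by
    intro V W _ _ _ _ _ _ α β
    refine cd_congr (TensorProduct.comm k V W) fun g x => ?_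
    induction x with
    | zero => simp
    | add x y hx hy => simp only [map_add, hx, hy]
    | tmul v w => simp [Representation.tprod_apply]
  have hs' : ∀ {V : Type} [AddCommGroup V] [Module k V] [FiniteDimensional k V]
      (α : Representation k G V) (n : ℕ), cd (α.tprod (τ (n + 1)))
        = cd ((α.tprod (MR k)).tprod (τ n)) := by
    intro V _ _ _ α n
    rw [comm, hs n, comm, ← cd_assoc]
  induction n with
  | zero =>
    intro j
    constructor
    · rw [comm, h0, cd_trivial_tprod, cd_U]; rfl
    · rw [comm, h0, cd_trivial_tprod, cd_D]; rfl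
  | succ n ih =>
    intro j
    rw [hs', hs']
    cases j with
    | zero =>
      rw [St_U0_M k _ (τ n), St_D0_M k _ (τ n), cd_prod_tprod, (ih 1).1, (ih 1).2, w]
      constructor <;> ring
    | succ j =>
      rw [St_U_M k j _ (τ n), St_D_M k j _ (τ n), cd_prod_tprod, cd_prod_tprod, (ih (j + 2)).1,
        (ih j).1, (ih j).2, (ih (j + 2)).2, w]
      constructor <;> ring

end Pool.Agent.Y56.Om
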