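import Pool.Agent.Y56.Om.Mods

set_option autoImplicit false
set_option linter.unusedSectionVars false
set_option linter.unusedVariables false

open TensorProduct CategoryTheory CategoryTheory.MonoidalCategory CategoryTheory.Limits

namespace Pool.Agent.Y56.Om

variable {k : Type} [Field k] [CharP k 2]

section decomp

variable {V : Type} [AddCommGroup V] [Module k V] [FiniteDimensional k V]
  (ρ : Representation k G V)

/-- Every representation is the direct sum of a relatively projective one and one on which the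
norm element acts as zero. -/
lemma exists_decomp : ∃ (N P : Submodule k V) (hN : ∀ g, N ≤ N.comap (ρ g))
    (hP : ∀ g, P ≤ P.comap (ρ g)), IsCompl N P ∧ Hig (ρ.subrepresentation P hP) ∧
    ∀ v ∈ N, ρ.norm v = 0 := by
  -- a projection onto `S = range norm` and a section of the norm
  obtain ⟨l, hl⟩ := LinearMap.exists_leftInverse_of_injective (LinearMap.range ρ.norm).subtype
    (by rw [Submodule.ker_subtype])
  obtain ⟨m, hm⟩ := LinearMap.exists_rightInverse_of_surjective ρ.norm.rangeRestrict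
    (LinearMap.range_rangeRestrict _)
  let β : V →ₗ[k] V := m ∘ₗ l
  let Tr : (V →ₗ[k] V) → (V →ₗ[k] V) := fun f => ∑ g, ρ g ∘ₗ f ∘ₗ ρ g⁻¹
  have Tr_apply : ∀ f v, Tr f v = ∑ g, ρ g (f (ρ g⁻¹ v)) := fun f v => by
    simp [Tr, LinearMap.sum_apply]
  let α : V →ₗ[k] V := Tr β
  have hα : ∀ g v, α (ρ g v) = ρ g (α v) := by
    intro g v
    rw [Tr_apply, Tr_apply, map_sum]
    refine Fintype.sum_equiv (Equiv.mulLeft g⁻¹) _ _ fun h => ?_
    simp only [Equiv.coe_mulLeft]
    rw [← Module.End.mul_apply (ρ g), ← map_mul, ← Module.End.mul_apply (ρ h⁻¹), ← map_mul]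
    congr 3
    · group
    · congr 1
      group
  have hαS : ∀ v, α (ρ.norm v) = ρ.norm v := by
    intro v
    rw [Tr_apply]
    have h1 : l (ρ.norm v) = ⟨ρ.norm v, v, rfl⟩ := by
      have := LinearMap.congr_fun hl ⟨ρ.norm v, v, rfl⟩
      simpa using this
    have h2 : ∀ g : G, ρ g⁻¹ (ρ.norm v) = ρ.norm v := fun g => ρ.self_norm_apply g⁻¹ v
    have h3 : ρ.norm (β (ρ.norm v)) = ρ.norm v := by
      have := congrArg Subtype.val (LinearMap.congr_fun hm ⟨ρ.norm v, v, rfl⟩)
      simp only [β, LinearMap.comp_apply, h1]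
      exact this
    simp only [h2]
    rw [Representation.norm, LinearMap.sum_apply] at h3
    exact h3
  obtain ⟨n, hn⟩ := Filter.eventually_atTop.1 (LinearMap.eventually_isCompl_ker_pow_range_pow α)
  have hc := hn (n + 1) (by omega)
  have hpow : ∀ (n : ℕ) g v, (α ^ n) (ρ g v) = ρ g ((α ^ n) v) := by
    intro n
    induction n with
    | zero => intro g v; simp
    | succ n ih => intro g v; rw [pow_succ', Module.End.mul_apply, Module.End.mul_apply, ih, hα]
  have hpowS : ∀ (n : ℕ) v, (α ^ n) (ρ.norm v) = ρ.norm v := by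
    intro n
    induction n with
    | zero => intro v; simp
    | succ n ih => intro v; rw [pow_succ', Module.End.mul_apply, ih, hαS]
  refine ⟨LinearMap.ker (α ^ (n + 1)), LinearMap.range (α ^ (n + 1)), ?_, ?_, hc, ?_, ?_⟩
  · intro g v hv
    rw [Submodule.mem_comap, LinearMap.mem_ker, hpow, LinearMap.mem_ker.1 hv, map_zero]
  · rintro g _ ⟨v, rfl⟩
    exact ⟨ρ g v, hpow _ _ _⟩
  · -- Higman
    set A : V →ₗ[k] V := α ^ (n + 1) with hA
    set P : Submodule k V := LinearMap.range A with hPdef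
    have hP : ∀ g, P ≤ P.comap (ρ g) := by
      rintro g _ ⟨v, rfl⟩
      exact ⟨ρ g v, hpow _ _ _⟩
    let AP : P →ₗ[k] P := A.restrict (fun v _ => ⟨v, rfl⟩)
    have hAPinj : Function.Injective AP := by
      rw [← LinearMap.ker_eq_bot, LinearMap.ker_eq_bot']
      intro v hv
      have h1 : (v : V) ∈ LinearMap.ker A := congrArg Subtype.val hv
      have h2 := Submodule.disjoint_def.1 hc.disjoint v h1 v.2
      exact Subtype.ext h2
    let E : P ≃ₗ[k] P := LinearEquiv.ofInjectiveEndo AP hAPinj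
    have hE : ∀ v, E v = AP v := fun v => rfl
    let π : V →ₗ[k] P := Submodule.projectionOnto P (LinearMap.ker A) hc.symm
    have hπ : ∀ v : P, π (v : V) = v := fun v => Submodule.projectionOnto_apply_left hc.symm v
    have hπg : ∀ g v, π (ρ g v) = (ρ.subrepresentation P hP) g (π v) := by
      intro g v
      obtain ⟨a, ha, b, hb, rfl⟩ := Submodule.mem_sup.1
        (show v ∈ LinearMap.ker A ⊔ P by rw [hc.sup_eq_top]; trivial)
      have h1 : π a = 0 := (Submodule.projectionOnto_apply_eq_zero_iff hc.symm).2 ha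
      have h2 : π (ρ g a) = 0 := (Submodule.projectionOnto_apply_eq_zero_iff hc.symm).2 (by
        rw [LinearMap.mem_ker, hpow, LinearMap.mem_ker.1 ha, map_zero])
      have h3 : π b = ⟨b, hb⟩ := hπ ⟨b, hb⟩
      have h4 : π (ρ g b) = ⟨ρ g b, hP g hb⟩ := hπ ⟨ρ g b, hP g hb⟩
      rw [map_add, map_add, map_add, h1, h2, h3, h4, zero_add, zero_add]
      rfl
    have hEg : ∀ g v, E ((ρ.subrepresentation P hP) g v) = (ρ.subrepresentation P hP) g (E v) := by
      intro g v
      apply Subtype.ext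
      exact hpow (n + 1) g (v : V)
    have hEg' : ∀ g v, E.symm ((ρ.subrepresentation P hP) g v)
        = (ρ.subrepresentation P hP) g (E.symm v) := by
      intro g v
      rw [LinearEquiv.symm_apply_eq, hEg, LinearEquiv.apply_symm_apply]
    refine ⟨π ∘ₗ β ∘ₗ (α ^ n) ∘ₗ P.subtype ∘ₗ E.symm.toLinearMap, fun v => ?_⟩
    simp only [LinearMap.comp_apply, Submodule.subtype_apply, LinearEquiv.coe_coe]
    have h1 : ∀ g : G, (ρ.subrepresentation P hP) g (π (β ((α ^ n)
        ((E.symm ((ρ.subrepresentation P hP) g⁻¹ v) : P) : V))))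
        = π (ρ g (β (ρ g⁻¹ ((α ^ n) ((E.symm v : P) : V))))) := by
      intro g
      rw [← hπg, hEg', ← hpow]
      rfl
    rw [Finset.sum_congr rfl fun g _ => h1 g, ← map_sum, ← Tr_apply]
    change π (α ((α ^ n) ((E.symm v : P) : V))) = v
    rw [← Module.End.mul_apply, ← pow_succ']
    have h2 : A ((E.symm v : P) : V) = ((E (E.symm v) : P) : V) := rfl
    rw [← hA, h2, LinearEquiv.apply_symm_apply, hπ]
  · intro v hv
    have h1 : (α ^ (n + 1)) (ρ.norm v) = 0 := by
      have : ρ.norm v ∈ LinearMap.ker (α ^ (n + 1)) := by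
        rw [Representation.norm, LinearMap.sum_apply]
        refine sum_mem fun g _ => ?_
        rw [LinearMap.mem_ker, hpow, LinearMap.mem_ker.1 hv, map_zero]
      exact this
    rw [hpowS] at h1
    exact h1

end decomp

section rep

/-- A representation satisfying Higman's criterion is projective. -/
lemma projective_of_hig (P : Rep.{0} k G) (h : Hig P.ρ) : Projective P := by
  constructor
  intro E X f e he
  obtain ⟨φ, hφ⟩ := h
  have hsurj : Function.Surjective e.hom := (Rep.epi_iff_surjective e).1 he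
  obtain ⟨s, hs⟩ := LinearMap.exists_rightInverse_of_surjective e.hom.toLinearMap
    (LinearMap.range_eq_top.2 hsurj)
  have hs' : ∀ x, e.hom (s x) = x := fun x => LinearMap.congr_fun hs x
  let h0 : P.V →ₗ[k] E.V := ∑ g, E.ρ g ∘ₗ s ∘ₗ f.hom.toLinearMap ∘ₗ φ ∘ₗ P.ρ g⁻¹
  have h0_apply : ∀ v, h0 v = ∑ g, E.ρ g (s (f.hom (φ (P.ρ g⁻¹ v)))) := fun v => by
    simp only [h0, LinearMap.sum_apply, LinearMap.comp_apply]
    rfl
  refine ⟨Rep.ofHom ⟨h0, fun g => ?_⟩, ?_⟩
  · ext v
    simp only [LinearMap.comp_apply]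
    rw [h0_apply, h0_apply, map_sum]
    refine Fintype.sum_equiv (Equiv.mulLeft g⁻¹) _ _ fun h => ?_
    simp only [Equiv.coe_mulLeft]
    rw [← Module.End.mul_apply (E.ρ g), ← map_mul, ← Module.End.mul_apply (P.ρ h⁻¹), ← map_mul]
    congr 3
    · group
    · congr 3
      group
  · apply Rep.hom_ext
    ext v
    change e.hom (h0 v) = f.hom v
    rw [h0_apply, map_sum]
    conv_rhs => rw [← hφ v, map_sum]
    refine Finset.sum_congr rfl fun g _ => ?_
    rw [Rep.hom_comm_apply, hs', Rep.hom_comm_apply]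

/-- the regular type representation on functions `G → W` -/
noncomputable def funRep (k : Type) [Field k] (W : Type) [AddCommGroup W] [Module k W] :
    Representation k G (G → W) where
  toFun g := { toFun := fun f x => f (g⁻¹ * x), map_add' := fun _ _ => rfl,
               map_smul' := fun _ _ => rfl }
  map_one' := LinearMap.ext fun f => funext fun x => by simp
  map_mul' g h := LinearMap.ext fun f => funext fun x => by simp [mul_assoc]

omit [CharP k 2] in
lemma funRep_apply {W : Type} [AddCommGroup W] [Module k W] (g : G) (f : G → W) (x : G) :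
    funRep k W g f x = f (g⁻¹ * x) := rfl

omit [CharP k 2] in
lemma hig_funRep (W : Type) [AddCommGroup W] [Module k W] : Hig (funRep k W) := by
  classical
  refine ⟨LinearMap.single k (fun _ : G => W) 1 ∘ₗ LinearMap.proj 1, fun f => ?_⟩
  funext x
  rw [Finset.sum_apply, Finset.sum_eq_single x]
  · simp [funRep_apply]
  · intro g _ hg
    simp only [funRep_apply, LinearMap.comp_apply, LinearMap.coe_single, LinearMap.coe_proj,
      Function.eval]
    rw [Pi.single_eq_of_ne]
    intro h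
    apply hg
    rw [inv_mul_eq_one] at h
    exact h
  · intro h
    exact absurd (Finset.mem_univ _) h

/-- A projective representation satisfies Higman's criterion. -/
lemma hig_of_projective (P : Rep.{0} k G) (h : Projective P) : Hig P.ρ := by
  let p : (G → P.V) →ₗ[k] P.V := ∑ x : G, P.ρ x ∘ₗ LinearMap.proj x
  have p_apply : ∀ f, p f = ∑ x, P.ρ x (f x) := fun f => by
    simp only [p, LinearMap.sum_apply, LinearMap.comp_apply, LinearMap.coe_proj, Function.eval]
  have hp : ∀ g f, p (funRep k P.V g f) = P.ρ g (p f) := by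
    intro g f
    rw [p_apply, p_apply, map_sum]
    refine Fintype.sum_equiv (Equiv.mulLeft g⁻¹) _ _ fun h => ?_
    simp only [Equiv.coe_mulLeft, funRep_apply]
    rw [← Module.End.mul_apply (P.ρ g), ← map_mul, mul_inv_cancel_left]
  let E : Rep.{0} k G := Rep.of (funRep k P.V)
  let q : E ⟶ P := Rep.ofHom ⟨p, fun g => LinearMap.ext fun f => hp g f⟩
  have hq : Epi q := by
    rw [Rep.epi_iff_surjective]
    intro v
    classical
    refine ⟨(Pi.single 1 v : G → P.V), ?_⟩
    change p (Pi.single 1 v) = v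
    rw [p_apply, Finset.sum_eq_single 1]
    · simp
    · intro x _ hx
      rw [Pi.single_eq_of_ne hx, map_zero]
    · intro h
      exact absurd (Finset.mem_univ _) h
  let s : P ⟶ E := Projective.factorThru (𝟙 P) q
  have hs : s ≫ q = 𝟙 P := Projective.factorThru_comp _ _
  obtain ⟨φ, hφ⟩ := hig_funRep (k := k) P.V
  refine ⟨p ∘ₗ φ ∘ₗ s.hom.toLinearMap, fun v => ?_⟩
  have h1 : ∀ g : G, P.ρ g ((p ∘ₗ φ ∘ₗ s.hom.toLinearMap) (P.ρ g⁻¹ v))
      = p (funRep k P.V g (φ (funRep k P.V g⁻¹ (s.hom v)))) := by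
    intro g
    rw [hp]
    simp only [LinearMap.comp_apply]
    congr 3
    exact Rep.hom_comm_apply s g⁻¹ v
  rw [Finset.sum_congr rfl fun g _ => h1 g, ← map_sum, hφ]
  have h2 : q.hom (s.hom v) = v := by
    have := congrArg (fun f => Rep.Hom.hom f v) hs
    exact this
  exact h2

/-- an isomorphism with a direct sum gives a linear equivalence with the product -/
lemma exists_prod_equiv {X N P : Rep.{0} k G} (i : X ≅ N ⊞ P) :
    ∃ e : X.V ≃ₗ[k] N.V × P.V, ∀ g x, e (X.ρ g x) = (N.ρ.prod P.ρ) g (e x) := by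
  let a : X ⟶ N := i.hom ≫ biprod.fst
  let b : X ⟶ P := i.hom ≫ biprod.snd
  let c : N ⟶ X := biprod.inl ≫ i.inv
  let d : P ⟶ X := biprod.inr ≫ i.inv
  have h1 : c ≫ a = 𝟙 N := by simp [a, c]
  have h2 : d ≫ a = 0 := by simp [a, d]
  have h3 : c ≫ b = 0 := by simp [b, c]
  have h4 : d ≫ b = 𝟙 P := by simp [b, d]
  have h5 : a ≫ c + b ≫ d = 𝟙 X := by
    have : a ≫ c + b ≫ d = i.hom ≫ (biprod.fst ≫ biprod.inl + biprod.snd ≫ biprod.inr) ≫ i.inv := by
      simp only [a, b, c, d, Category.assoc, Preadditive.add_comp, Preadditive.comp_add]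
    rw [this, biprod.total]
    simp
  have e1 : ∀ x, a.hom (c.hom x) = x := fun x => congrArg (fun f => Rep.Hom.hom f x) h1
  have e2 : ∀ x, a.hom (d.hom x) = 0 := fun x => congrArg (fun f => Rep.Hom.hom f x) h2
  have e3 : ∀ x, b.hom (c.hom x) = 0 := fun x => congrArg (fun f => Rep.Hom.hom f x) h3
  have e4 : ∀ x, b.hom (d.hom x) = x := fun x => congrArg (fun f => Rep.Hom.hom f x) h4
  have e5 : ∀ x, c.hom (a.hom x) + d.hom (b.hom x) = x :=
    fun x => congrArg (fun f => Rep.Hom.hom f x) h5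
  refine ⟨LinearEquiv.ofLinearMap (a.hom.toLinearMap.prod b.hom.toLinearMap)
    (c.hom.toLinearMap.coprod d.hom.toLinearMap) ?_ ?_, ?_⟩
  · ext1
    · ext1 x
      refine Prod.ext ?_ ?_
      · change a.hom (c.hom x + d.hom 0) = x
        rw [map_zero, add_zero, e1]
      · change b.hom (c.hom x + d.hom 0) = 0
        rw [map_zero, add_zero, e3]
    · ext1 x
      refine Prod.ext ?_ ?_
      · change a.hom (c.hom 0 + d.hom x) = 0
        rw [map_zero, zero_add, e2]
      · change b.hom (c.hom 0 + d.hom x) = x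
        rw [map_zero, zero_add, e4]
  · ext1 x
    exact e5 x
  · intro g x
    refine Prod.ext ?_ ?_
    · exact Rep.hom_comm_apply a g x
    · exact Rep.hom_comm_apply b g x

/-- direct sum decomposition from complementary subrepresentations -/
lemma iso_biprod (X : Rep.{0} k G) (N P : Submodule k X.V) (hN : ∀ g, N ≤ N.comap (X.ρ g))
    (hP : ∀ g, P ≤ P.comap (X.ρ g)) (hc : IsCompl N P) :
    Nonempty (X ≅ Rep.of (X.ρ.subrepresentation N hN) ⊞ Rep.of (X.ρ.subrepresentation P hP)) := by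
  let a' : X.V →ₗ[k] N := Submodule.projectionOnto N P hc
  let b' : X.V →ₗ[k] P := Submodule.projectionOnto P N hc.symm
  have ha1 : ∀ v : N, a' (v : X.V) = v := fun v => Submodule.projectionOnto_apply_left hc v
  have ha2 : ∀ v : P, a' (v : X.V) = 0 := fun v =>
    (Submodule.projectionOnto_apply_eq_zero_iff hc).2 v.2
  have hb1 : ∀ v : P, b' (v : X.V) = v :=
    fun v => Submodule.projectionOnto_apply_left hc.symm v
  have hb2 : ∀ v : N, b' (v : X.V) = 0 := fun v =>
    (Submodule.projectionOnto_apply_eq_zero_iff hc.symm).2 v.2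
  have hsum : ∀ v, (a' v : X.V) + (b' v : X.V) = v := by
    intro v
    obtain ⟨x, hx, y, hy, rfl⟩ := Submodule.mem_sup.1
      (show v ∈ N ⊔ P by rw [hc.sup_eq_top]; trivial)
    rw [map_add, map_add, ha1 ⟨x, hx⟩, ha2 ⟨y, hy⟩, hb1 ⟨y, hy⟩, hb2 ⟨x, hx⟩]
    simp
  have hag : ∀ g v, a' (X.ρ g v) = (X.ρ.subrepresentation N hN) g (a' v) := by
    intro g v
    obtain ⟨x, hx, y, hy, rfl⟩ := Submodule.mem_sup.1
      (show v ∈ N ⊔ P by rw [hc.sup_eq_top]; trivial)
    rw [map_add, map_add, map_add, ha1 ⟨x, hx⟩, ha2 ⟨y, hy⟩, ha1 ⟨_, hN g hx⟩, ha2 ⟨_, hP g hy⟩,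
      add_zero, add_zero]
    rfl
  have hbg : ∀ g v, b' (X.ρ g v) = (X.ρ.subrepresentation P hP) g (b' v) := by
    intro g v
    obtain ⟨x, hx, y, hy, rfl⟩ := Submodule.mem_sup.1
      (show v ∈ N ⊔ P by rw [hc.sup_eq_top]; trivial)
    rw [map_add, map_add, map_add, hb1 ⟨y, hy⟩, hb2 ⟨x, hx⟩, hb1 ⟨_, hP g hy⟩, hb2 ⟨_, hN g hx⟩,
      zero_add, zero_add]
    rfl
  let a : X ⟶ Rep.of (X.ρ.subrepresentation N hN) :=
    Rep.ofHom ⟨a', fun g => LinearMap.ext fun v => hag g v⟩
  let b : X ⟶ Rep.of (X.ρ.subrepresentation P hP) :=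
    Rep.ofHom ⟨b', fun g => LinearMap.ext fun v => hbg g v⟩
  let c : Rep.of (X.ρ.subrepresentation N hN) ⟶ X := Rep.ofHom ⟨N.subtype, fun g => rfl⟩
  let d : Rep.of (X.ρ.subrepresentation P hP) ⟶ X := Rep.ofHom ⟨P.subtype, fun g => rfl⟩
  have h1 : c ≫ a = 𝟙 _ := Rep.hom_ext (by ext v; exact congrArg Subtype.val (ha1 v))
  have h2 : d ≫ a = 0 := Rep.hom_ext (by ext v; exact congrArg Subtype.val (ha2 v))
  have h3 : c ≫ b = 0 := Rep.hom_ext (by ext v; exact congrArg Subtype.val (hb2 v))
  have h4 : d ≫ b = 𝟙 _ := Rep.hom_ext (by ext v; exact congrArg Subtype.val (hb1 v))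
  have h5 : a ≫ c + b ≫ d = 𝟙 X := Rep.hom_ext (by ext v; exact hsum v)
  refine ⟨⟨biprod.lift a b, biprod.desc c d, ?_, ?_⟩⟩
  · rw [biprod.lift_desc, h5]
  · apply biprod.hom_ext'
    · apply biprod.hom_ext
      · simp [h1]
      · simp [h3]
    · apply biprod.hom_ext
      · simp [h2]
      · simp [h4]

/-- The number in the statement is `cd`. -/
lemma sInf_eq_cd (X : Rep.{0} k G) [FiniteDimensional k X.V] :
    ((sInf {d : ℕ | ∃ N P' : Rep.{0} k G, Projective P' ∧ Nonempty (X ≅ N ⊞ P') ∧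
      Module.finrank k N.V = d} : ℕ) : ℤ) = cd X.ρ := by
  have hlow : ∀ d ∈ {d : ℕ | ∃ N P' : Rep.{0} k G, Projective P' ∧ Nonempty (X ≅ N ⊞ P') ∧
      Module.finrank k N.V = d}, cd X.ρ ≤ d := by
    rintro d ⟨N, P, hP, ⟨i⟩, hd⟩
    obtain ⟨e, he⟩ := exists_prod_equiv i
    have hfd : FiniteDimensional k (N.V × P.V) := e.finiteDimensional
    have hN : FiniteDimensional k N.V :=
      FiniteDimensional.of_injective (LinearMap.inl k N.V P.V) LinearMap.inl_injective
    have hPf : FiniteDimensional k P.V :=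
      FiniteDimensional.of_injective (LinearMap.inr k N.V P.V) LinearMap.inr_injective
    rw [cd_congr e he, cd_prod]
    have h1 : cd P.ρ = 0 := by
      rw [cd, (hig_of_projective P hP).finrank_eq]
      push_cast
      ring
    rw [h1, cd, hd]
    have : (0 : ℤ) ≤ rk N.ρ := Int.natCast_nonneg _
    omega
  obtain ⟨N, P, hN, hP, hc, hH, hz⟩ := exists_decomp X.ρ
  obtain ⟨i⟩ := iso_biprod X N P hN hP hc
  have hmem : Module.finrank k N ∈ {d : ℕ | ∃ N P' : Rep.{0} k G, Projective P' ∧
      Nonempty (X ≅ N ⊞ P') ∧ Module.finrank k N.V = d} :=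
    ⟨_, _, projective_of_hig _ hH, ⟨i⟩, rfl⟩
  have hval : cd X.ρ = Module.finrank k N := by
    obtain ⟨e, he⟩ := exists_prod_equiv i
    have h1 : cd (X.ρ.subrepresentation P hP) = 0 := by
      rw [cd, hH.finrank_eq]
      push_cast
      ring
    have h2 : cd (X.ρ.subrepresentation N hN) = Module.finrank k N := by
      refine cd_of_norm_zero _ _ fun v => ?_
      apply Subtype.ext
      have : (((X.ρ.subrepresentation N hN).norm v : N) : X.V) = X.ρ.norm (v : X.V) := by
        rw [Representation.norm, Representation.norm, LinearMap.sum_apply, LinearMap.sum_apply,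
          Submodule.coe_sum]
        rfl
      rw [this]
      exact hz v v.2
    rw [cd_congr e he, cd_prod]
    change cd (X.ρ.subrepresentation N hN) + cd (X.ρ.subrepresentation P hP) = _
    rw [h1, h2, add_zero]
  apply le_antisymm
  · rw [hval]
    exact_mod_cast Nat.sInf_le hmem
  · exact hlow _ (Nat.sInf_mem ⟨_, hmem⟩)

end rep

end Pool.Agent.Y56.Om
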