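import Pool.Agent.Y56.Om.Basic

set_option autoImplicit false
set_option linter.unusedSectionVars false
set_option linter.unusedVariables false

open TensorProduct

namespace Pool.Agent.Y56.Om

variable {k : Type} [Field k] [CharP k 2]

section ses

variable {A F C : Type} [AddCommGroup A] [Module k A] [AddCommGroup F] [Module k F]
    [AddCommGroup C] [Module k C] {ρA : Representation k G A} {ρF : Representation k G F}
    {ρC : Representation k G C} (S : SES ρA ρF ρC)
    {Z : Type} [AddCommGroup Z] [Module k Z] (τ : Representation k G Z)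

/-- Tensoring a short exact sequence on the right. -/
noncomputable def SES.tprod_right : SES (ρA.tprod τ) (ρF.tprod τ) (ρC.tprod τ) where
  i := S.i.rTensor Z
  p := S.p.rTensor Z
  hi g x := by
    induction x with
    | zero => simp
    | add x y hx hy => simp only [map_add, hx, hy]
    | tmul v w => simp [Representation.tprod_apply, S.hi]
  hp g x := by
    induction x with
    | zero => simp
    | add x y hx hy => simp only [map_add, hx, hy]
    | tmul v w => simp [Representation.tprod_apply, S.hp]
  inj := Module.Flat.rTensor_preserves_injective_linearMap _ S.inj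
  surj := LinearMap.rTensor_surjective _ S.surj
  ex := rTensor_exact _ S.ex S.surj

/-- Tensoring a short exact sequence on the left. -/
noncomputable def SES.tprod_left : SES (τ.tprod ρA) (τ.tprod ρF) (τ.tprod ρC) where
  i := S.i.lTensor Z
  p := S.p.lTensor Z
  hi g x := by
    induction x with
    | zero => simp
    | add x y hx hy => simp only [map_add, hx, hy]
    | tmul v w => simp [Representation.tprod_apply, S.hi]
  hp g x := by
    induction x with
    | zero => simp
    | add x y hx hy => simp only [map_add, hx, hy]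
    | tmul v w => simp [Representation.tprod_apply, S.hp]
  inj := Module.Flat.lTensor_preserves_injective_linearMap _ S.inj
  surj := LinearMap.lTensor_surjective _ S.surj
  ex := lTensor_exact _ S.ex S.surj

/-- Replacing the third term by an isomorphic one. -/
def SES.congr_right {C' : Type} [AddCommGroup C'] [Module k C'] {ρC' : Representation k G C'}
    (e : C ≃ₗ[k] C') (he : ∀ g x, e (ρC g x) = ρC' g (e x)) : SES ρA ρF ρC' where
  i := S.i
  p := e.toLinearMap ∘ₗ S.p
  hi := S.hi
  hp g x := by simp [S.hp, he]
  inj := S.inj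
  surj := e.surjective.comp S.surj
  ex := by
    intro x
    rw [← S.ex x]
    simp

/-- Replacing the first term by an isomorphic one. -/
def SES.congr_left {A' : Type} [AddCommGroup A'] [Module k A'] {ρA' : Representation k G A'}
    (e : A' ≃ₗ[k] A) (he : ∀ g x, e (ρA' g x) = ρA g (e x)) : SES ρA' ρF ρC where
  i := S.i ∘ₗ e.toLinearMap
  p := S.p
  hi g x := by simp [S.hi, he]
  hp := S.hp
  inj := S.inj.comp e.injective
  surj := S.surj
  ex := by
    intro x
    rw [S.ex x]
    constructor
    · rintro ⟨y, rfl⟩
      exact ⟨e.symm y, by simp⟩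
    · rintro ⟨y, rfl⟩
      exact ⟨e y, rfl⟩

end ses

section equiv

lemma cd_congr {V W : Type} [AddCommGroup V] [Module k V] [AddCommGroup W] [Module k W]
    [FiniteDimensional k V] [FiniteDimensional k W]
    {ρ : Representation k G V} {σ : Representation k G W} (e : V ≃ₗ[k] W)
    (he : ∀ g x, e (ρ g x) = σ g (e x)) : cd ρ = cd σ := by
  have h1 : Module.finrank k V = Module.finrank k W := e.finrank_eq
  have h2 : rk ρ = rk σ := by
    rw [rk, rk]
    have h3 : LinearMap.range σ.norm = (LinearMap.range ρ.norm).map e.toLinearMap := by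
      rw [← LinearMap.range_comp]
      have e1 : e.toLinearMap ∘ₗ ρ.norm = σ.norm ∘ₗ e.toLinearMap :=
        LinearMap.ext fun v => map_norm e.toLinearMap he v
      rw [e1, LinearMap.range_comp_of_range_eq_top _ (LinearMap.range_eq_top.2 e.surjective)]
    rw [h3]
    exact (Submodule.equivMapOfInjective _ e.injective _).finrank_eq
  rw [cd, cd, h1, h2]

lemma finrank_submodule_prod {V W : Type} [AddCommGroup V] [Module k V] [AddCommGroup W]
    [Module k W] [FiniteDimensional k V] [FiniteDimensional k W] (p : Submodule k V)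
    (q : Submodule k W) :
    Module.finrank k (p.prod q) = Module.finrank k p + Module.finrank k q := by
  have e : (p.prod q) ≃ₗ[k] p × q :=
    { toFun := fun x => (⟨x.1.1, x.2.1⟩, ⟨x.1.2, x.2.2⟩)
      invFun := fun x => ⟨(x.1.1, x.2.1), ⟨x.1.2, x.2.2⟩⟩
      map_add' := fun x y => rfl
      map_smul' := fun c x => rfl
      left_inv := fun x => rfl
      right_inv := fun x => rfl }
  rw [e.finrank_eq, Module.finrank_prod]

lemma cd_prod {V W : Type} [AddCommGroup V] [Module k V] [AddCommGroup W] [Module k W]
    [FiniteDimensional k V] [FiniteDimensional k W]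
    (ρ : Representation k G V) (σ : Representation k G W) : cd (ρ.prod σ) = cd ρ + cd σ := by
  have h1 : Module.finrank k (V × W) = Module.finrank k V + Module.finrank k W :=
    Module.finrank_prod
  have h2 : rk (ρ.prod σ) = rk ρ + rk σ := by
    rw [rk, rk, rk]
    have h3 : (ρ.prod σ).norm = ρ.norm.prodMap σ.norm := by
      ext v <;> simp [Representation.norm, Representation.prod, LinearMap.sum_apply, Prod.fst_sum,
        Prod.snd_sum]
    rw [h3, LinearMap.range_prodMap, finrank_submodule_prod]
  rw [cd, cd, cd, h1, h2]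
  push_cast
  ring

variable {V₁ V₂ V₃ : Type} [AddCommGroup V₁] [Module k V₁] [AddCommGroup V₂] [Module k V₂]
  [AddCommGroup V₃] [Module k V₃] [FiniteDimensional k V₁] [FiniteDimensional k V₂]
  [FiniteDimensional k V₃]

/-- Stable equivalence: the dimensions of the cores agree after tensoring with anything. -/
def St (ρ₁ : Representation k G V₁) (ρ₂ : Representation k G V₂) : Prop :=
  ∀ (Z : Type) [AddCommGroup Z] [Module k Z] [FiniteDimensional k Z]
    (τ : Representation k G Z), cd (ρ₁.tprod τ) = cd (ρ₂.tprod τ)

lemma St.symm {ρ₁ : Representation k G V₁} {ρ₂ : Representation k G V₂} (h : St ρ₁ ρ₂) :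
    St ρ₂ ρ₁ := fun Z _ _ _ τ => (h Z τ).symm

lemma St.trans {ρ₁ : Representation k G V₁} {ρ₂ : Representation k G V₂}
    {ρ₃ : Representation k G V₃} (h : St ρ₁ ρ₂) (h' : St ρ₂ ρ₃) : St ρ₁ ρ₃ :=
  fun Z _ _ _ τ => (h Z τ).trans (h' Z τ)

lemma St.of_equiv {ρ₁ : Representation k G V₁} {ρ₂ : Representation k G V₂} (e : V₁ ≃ₗ[k] V₂)
    (he : ∀ g x, e (ρ₁ g x) = ρ₂ g (e x)) : St ρ₁ ρ₂ := by
  intro Z _ _ _ τ
  refine cd_congr (TensorProduct.congr e (LinearEquiv.refl k Z)) fun g x => ?_
  induction x with
  | zero => simp
  | add x y hx hy => simp only [map_add, hx, hy]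
  | tmul v w => simp [Representation.tprod_apply, he]

lemma tprod_assoc_equiv {A B C : Type} [AddCommGroup A] [Module k A] [AddCommGroup B] [Module k B]
    [AddCommGroup C] [Module k C] (α : Representation k G A) (β : Representation k G B)
    (γ : Representation k G C) (g : G) (x : (A ⊗[k] B) ⊗[k] C) :
    TensorProduct.assoc k A B C (((α.tprod β).tprod γ) g x)
      = (α.tprod (β.tprod γ)) g (TensorProduct.assoc k A B C x) := by
  induction x with
  | zero => simp
  | add x y hx hy => simp only [map_add, hx, hy]
  | tmul v w =>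
    induction v with
    | zero => simp
    | add x y hx hy => simp only [map_add, TensorProduct.add_tmul, hx, hy]
    | tmul a b => simp [Representation.tprod_apply]

lemma cd_assoc (α : Representation k G V₁) (β : Representation k G V₂)
    (γ : Representation k G V₃) : cd ((α.tprod β).tprod γ) = cd (α.tprod (β.tprod γ)) :=
  cd_congr (TensorProduct.assoc k V₁ V₂ V₃) (tprod_assoc_equiv α β γ)

lemma St.tprod_right {ρ₁ : Representation k G V₁} {ρ₂ : Representation k G V₂} (h : St ρ₁ ρ₂)
    (σ : Representation k G V₃) : St (ρ₁.tprod σ) (ρ₂.tprod σ) := by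
  intro Z _ _ _ τ
  rw [cd_assoc, cd_assoc]
  exact h _ _

lemma cd_prod_tprod (α : Representation k G V₁) (β : Representation k G V₂)
    (γ : Representation k G V₃) :
    cd ((α.prod β).tprod γ) = cd (α.tprod γ) + cd (β.tprod γ) := by
  rw [← cd_prod]
  refine cd_congr (TensorProduct.prodLeft k k V₁ V₂ V₃) fun g x => ?_
  induction x with
  | zero => simp only [map_zero]
  | add x y hx hy => simp only [map_add, hx, hy]
  | tmul v w =>
    obtain ⟨v1, v2⟩ := v
    simp [Representation.tprod_apply, Representation.prod]

lemma St_tprod_prod (γ : Representation k G V₃) (α : Representation k G V₁)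
    (β : Representation k G V₂) :
    St (γ.tprod (α.prod β)) ((γ.tprod α).prod (γ.tprod β)) := by
  refine St.of_equiv (TensorProduct.prodRight k k V₃ V₁ V₂) fun g x => ?_
  induction x with
  | zero => simp only [map_zero]
  | add x y hx hy => simp only [map_add, hx, hy]
  | tmul w v =>
    obtain ⟨v1, v2⟩ := v
    simp [Representation.tprod_apply, Representation.prod]

lemma St.prod {V₄ : Type} [AddCommGroup V₄] [Module k V₄] [FiniteDimensional k V₄]
    {ρ₁ : Representation k G V₁} {ρ₂ : Representation k G V₂}
    {ρ₃ : Representation k G V₃} {ρ₄ : Representation k G V₄} (h : St ρ₁ ρ₂) (h' : St ρ₃ ρ₄) :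
    St (ρ₁.prod ρ₃) (ρ₂.prod ρ₄) := by
  intro Z _ _ _ τ
  rw [cd_prod_tprod, cd_prod_tprod, h Z τ, h' Z τ]

lemma cd_tprod_trivial (ρ : Representation k G V₁) :
    cd (ρ.tprod (Representation.trivial k G k)) = cd ρ := by
  refine cd_congr (TensorProduct.rid k V₁) fun g x => ?_
  induction x with
  | zero => simp
  | add x y hx hy => simp only [map_add, hx, hy]
  | tmul v w => simp [Representation.tprod_apply]

lemma cd_trivial_tprod (ρ : Representation k G V₁) :
    cd ((Representation.trivial k G k).tprod ρ) = cd ρ := by
  refine cd_congr (TensorProduct.lid k V₁) fun g x => ?_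
  induction x with
  | zero => simp
  | add x y hx hy => simp only [map_add, hx, hy]
  | tmul v w => simp [Representation.tprod_apply]

lemma St.cd_eq {ρ₁ : Representation k G V₁} {ρ₂ : Representation k G V₂} (h : St ρ₁ ρ₂) :
    cd ρ₁ = cd ρ₂ := by
  rw [← cd_tprod_trivial ρ₁, ← cd_tprod_trivial ρ₂]
  exact h _ _

/-- Two syzygies of the same module are stably equivalent. -/
lemma St.of_syz {C F F' : Type} [AddCommGroup C] [Module k C] [AddCommGroup F] [Module k F]
    [AddCommGroup F'] [Module k F'] [FiniteDimensional k C] [FiniteDimensional k F]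
    [FiniteDimensional k F'] {ρ₁ : Representation k G V₁} {ρ₂ : Representation k G V₂}
    {ρF : Representation k G F} {ρF' : Representation k G F'} {ρC : Representation k G C}
    (S : SES ρ₁ ρF ρC) (S' : SES ρ₂ ρF' ρC) (hF : Hig ρF) (hF' : Hig ρF') : St ρ₁ ρ₂ := by
  intro Z _ _ _ τ
  rw [(S.tprod_right τ).cd_left (hF.tprod_right τ), (S'.tprod_right τ).cd_left (hF'.tprod_right τ)]

/-- Two cosyzygies of the same module are stably equivalent. -/
lemma St.of_cosyz {A F F' : Type} [AddCommGroup A] [Module k A] [AddCommGroup F] [Module k F]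
    [AddCommGroup F'] [Module k F'] [FiniteDimensional k A] [FiniteDimensional k F]
    [FiniteDimensional k F'] {ρ₁ : Representation k G V₁} {ρ₂ : Representation k G V₂}
    {ρF : Representation k G F} {ρF' : Representation k G F'} {ρA : Representation k G A}
    (S : SES ρA ρF ρ₁) (S' : SES ρA ρF' ρ₂) (hF : Hig ρF) (hF' : Hig ρF') : St ρ₁ ρ₂ := by
  intro Z _ _ _ τ
  rw [(S.tprod_right τ).cd_right (hF.tprod_right τ),
    (S'.tprod_right τ).cd_right (hF'.tprod_right τ)]

end equiv

end Pool.Agent.Y56.Om
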